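import Pool.Agent.H98.L.Num

namespace Pool.Agent.H98.L

/-- pointwise comparison of lists of equal length -/
def leL : List ℕ → List ℕ → Bool
  | [], [] => true
  | x :: xs, y :: ys => Nat.ble x y && leL xs ys
  | _, _ => false

/-- the window is long enough: the last entries are close to the full scale -/
def topOk (q : ℕ) (lo : List ℕ) : Bool :=
  Nat.ble (q - 2 ^ 51) (lo.getD 160 0) && Nat.ble q (2 * lo.getD 150 0)

def chk (q A1 A2 B : ℕ) (ls hs : List ℕ) : ℕ → List ℕ → List ℕ → Bool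
  | 0, lo, hi => leL ls lo && leL hi hs
  | n + 1, lo, hi => topOk q lo && chk q A1 A2 B ls hs n (stepLow q A1 B hi) (stepUp q A2 B lo)

def trapOk (q A1 A2 B : ℕ) (ls hs : List ℕ) : Bool :=
  topOk q ls && topOk q (stepLow q A1 B hs) &&
    leL ls (stepLow q A1 B (stepUp q A2 B ls)) &&
    leL (stepUp q A2 B (stepLow q A1 B hs)) hs &&
    Nat.ble (2 * hs.getD 80 0) q && Nat.ble (3 * q) (5 * (stepLow q A1 B hs).getD 80 0) &&
    leL hs (List.replicate 161 q)

def iter (q A1 A2 B : ℕ) : ℕ → List ℕ → List ℕ → List ℕ × List ℕ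
  | 0, lo, hi => (lo, hi)
  | n + 1, lo, hi => iter q A1 A2 B n (stepLow q A1 B hi) (stepUp q A2 B lo)

def modHAux (q : ℕ) : ℕ → List ℕ → List ℕ
  | _, [] => []
  | a, v :: t => (if Nat.ble 121 a then q else if Nat.ble (a + 1) 40 then v + v / 1024 + 1 else v) ::
      modHAux q (a + 1) t

def modLAux (q : ℕ) : ℕ → List ℕ → List ℕ
  | _, [] => []
  | a, v :: t => (if Nat.ble 121 a then v - (q - v) / 1024 - 1
      else if Nat.ble (a + 1) 40 then v - v / 1024 - 1 else v) ::
      modLAux q (a + 1) t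

def q0 : ℕ := 5192296858534827628530496329220096
def A10 : ℕ := 864691128455135233
def A20 : ℕ := 864691128455135231
def B0 : ℕ := 1152921504606846976

def e0 : List ℕ := List.replicate 80 0 ++ List.replicate 81 q0
def eth : List ℕ := List.replicate 80 0 ++ (3 * q0 / 10 :: List.replicate 80 q0)

def hs0 : List ℕ := modHAux q0 0 (iter q0 A10 A20 B0 36 e0 e0).2
def ls0 : List ℕ := modLAux q0 0 (iter q0 A10 A20 B0 36 eth eth).1

def allOk : Bool := chk q0 A10 A20 B0 ls0 hs0 36 e0 e0 && trapOk q0 A10 A20 B0 ls0 hs0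

end Pool.Agent.H98.L
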