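import Pool.Agent.H98.L.Num

namespace Pool.Agent.H98.L

open Real Finset

/-- initial sums of the exponential series -/
noncomputable def ps (x : ℝ) (j : ℕ) : ℝ := ∑ i ∈ range j, x ^ i / (i.factorial : ℝ)

theorem ps_succ (x : ℝ) (j : ℕ) : ps x (j + 1) = ps x j + x ^ j / (j.factorial : ℝ) := by
  unfold ps; rw [sum_range_succ]

theorem term_succ (x y : ℝ) (j : ℕ) :
    x ^ j / (j.factorial : ℝ) * (1 + x * y / ((j : ℝ) + 1)) =
      x ^ j / (j.factorial : ℝ) + x ^ (j + 1) / ((j + 1).factorial : ℝ) * y := by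
  rw [Nat.factorial_succ]
  push_cast
  have hf : (j.factorial : ℝ) ≠ 0 := by positivity
  have hj : (j : ℝ) + 1 ≠ 0 := by positivity
  field_simp
  ring

theorem hornLow_sound (q : ℕ) (hq : 0 < q) (z : ℕ) (x : ℝ) (hx : x = (z : ℝ) / q) (j : ℕ) :
    ∀ r : ℕ, ps x j + x ^ j / (j.factorial : ℝ) * ((r : ℝ) / q) ≤ Real.exp x →
      ((hornLow q z j r : ℕ) : ℝ) / q ≤ Real.exp x := by
  have hQ : (0 : ℝ) < q := by exact_mod_cast hq
  induction j with
  | zero =>
    intro r h
    simpa [hornLow, ps] using h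
  | succ j ih =>
    intro r h
    unfold hornLow
    apply ih
    refine le_trans ?_ h
    have hx0 : 0 ≤ x := by rw [hx]; positivity
    have hdiv : ((z * r / (q * (j + 1)) : ℕ) : ℝ) ≤ (z : ℝ) * r / (q * ((j : ℝ) + 1)) := by
      have := @Nat.cast_div_le ℝ _ _ _ (z * r) (q * (j + 1))
      push_cast at this
      exact this
    have e1 : (((q + z * r / (q * (j + 1)) : ℕ)) : ℝ) / q ≤ 1 + x * ((r : ℝ) / q) / ((j : ℝ) + 1) := by
      push_cast
      rw [div_le_iff₀ hQ]
      have e0 : (1 + x * ((r : ℝ) / q) / ((j : ℝ) + 1)) * q = q + (z : ℝ) * r / (q * ((j : ℝ) + 1)) := by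
        rw [hx]; field_simp
      rw [e0]
      linarith
    have e2 := mul_le_mul_of_nonneg_left e1 (show 0 ≤ x ^ j / (j.factorial : ℝ) by positivity)
    rw [term_succ] at e2
    rw [ps_succ]
    linarith

theorem hornUp_sound (q : ℕ) (hq : 0 < q) (z : ℕ) (x : ℝ) (hx : x = (z : ℝ) / q) (j : ℕ) :
    ∀ r : ℕ, Real.exp x ≤ ps x j + x ^ j / (j.factorial : ℝ) * ((r : ℝ) / q) →
      Real.exp x ≤ ((hornUp q z j r : ℕ) : ℝ) / q := by
  have hQ : (0 : ℝ) < q := by exact_mod_cast hq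
  induction j with
  | zero =>
    intro r h
    simpa [hornUp, ps] using h
  | succ j ih =>
    intro r h
    unfold hornUp
    apply ih
    refine le_trans h ?_
    have hx0 : 0 ≤ x := by rw [hx]; positivity
    have hdiv : (z : ℝ) * r / (q * ((j : ℝ) + 1)) ≤ ((z * r / (q * (j + 1)) : ℕ) : ℝ) + 1 := by
      have hpos : 0 < q * (j + 1) := by positivity
      have h1 : z * r < (z * r / (q * (j + 1)) + 1) * (q * (j + 1)) :=
        (Nat.div_lt_iff_lt_mul hpos).1 (Nat.lt_succ_self _)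
      have h2 : ((z * r : ℕ) : ℝ) < (((z * r / (q * (j + 1)) + 1) * (q * (j + 1)) : ℕ) : ℝ) := by
        exact_mod_cast h1
      rw [div_le_iff₀ (by positivity)]
      push_cast at h2 ⊢
      linarith
    have e1 : 1 + x * ((r : ℝ) / q) / ((j : ℝ) + 1) ≤ (((q + z * r / (q * (j + 1)) + 1 : ℕ)) : ℝ) / q := by
      push_cast
      rw [le_div_iff₀ hQ]
      have e0 : (1 + x * ((r : ℝ) / q) / ((j : ℝ) + 1)) * q = q + (z : ℝ) * r / (q * ((j : ℝ) + 1)) := by
        rw [hx]; field_simp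
      rw [e0]
      linarith
    have e2 := mul_le_mul_of_nonneg_left e1 (show 0 ≤ x ^ j / (j.factorial : ℝ) by positivity)
    rw [term_succ] at e2
    rw [ps_succ]
    linarith

theorem hornLow_ge (q z : ℕ) (j : ℕ) (hj : 0 < j) (r : ℕ) (hr : q ≤ r) : q ≤ hornLow q z j r := by
  induction j generalizing r with
  | zero => omega
  | succ j ih =>
    unfold hornLow
    rcases Nat.eq_zero_or_pos j with h | h
    · subst h
      unfold hornLow
      exact Nat.le_add_right _ _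
    · exact ih h _ (Nat.le_add_right _ _)

theorem hornUp_pos (q z : ℕ) (j : ℕ) (hj : 0 < j) (r : ℕ) : 0 < hornUp q z j r := by
  induction j generalizing r with
  | zero => omega
  | succ j ih =>
    unfold hornUp
    rcases Nat.eq_zero_or_pos j with h | h
    · subst h
      unfold hornUp
      exact Nat.succ_pos _
    · exact ih h _

/-- The lower factor is a lower bound for the exponential. -/
theorem facLow_sound (q A B : ℕ) (hq : 0 < q) (hB : 0 < B) (h : ℕ)
    (hz : A * h / B + 1 ≤ q) :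
    ((facLow q A B h : ℕ) : ℝ) / q ≤ Real.exp (-((A : ℝ) / B * ((h : ℝ) / q))) := by
  have hQ : (0 : ℝ) < q := by exact_mod_cast hq
  have hBr : (0 : ℝ) < B := by exact_mod_cast hB
  set z : ℕ := A * h / B + 1 with hzdef
  set x : ℝ := (z : ℝ) / q with hxdef
  have hx0 : 0 ≤ x := by positivity
  have hx1 : x ≤ 1 := by
    rw [hxdef, div_le_one hQ]; exact_mod_cast hz
  have hup : Real.exp x ≤ ((hornUp q z 30 (2 * q) : ℕ) : ℝ) / q := by
    apply hornUp_sound q hq z x rfl
    have hb := Real.exp_bound' hx0 hx1 (n := 30) (by norm_num)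
    have e : x ^ 30 * ((30 : ℕ) + 1 : ℝ) / ((Nat.factorial 30 : ℕ) * (30 : ℕ) : ℝ)
        ≤ x ^ 30 / (Nat.factorial 30 : ℕ) * (((2 * q : ℕ) : ℝ) / q) := by
      have h2 : (((2 * q : ℕ) : ℝ) / q) = 2 := by
        push_cast; field_simp
      rw [h2]
      have hf : (0 : ℝ) < (Nat.factorial 30 : ℕ) := by positivity
      rw [show x ^ 30 * ((30 : ℕ) + 1 : ℝ) / ((Nat.factorial 30 : ℕ) * (30 : ℕ) : ℝ)
        = x ^ 30 / (Nat.factorial 30 : ℕ) * ((((30 : ℕ) : ℝ) + 1) / ((30 : ℕ) : ℝ)) by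
          field_simp]
      apply mul_le_mul_of_nonneg_left _ (by positivity)
      norm_num
    unfold ps
    linarith
  have hden : (0 : ℝ) < ((hornUp q z 30 (2 * q) : ℕ) : ℝ) := by
    exact_mod_cast hornUp_pos q z 30 (by norm_num) _
  have h1 : ((facLow q A B h : ℕ) : ℝ) ≤ (q : ℝ) * q / ((hornUp q z 30 (2 * q) : ℕ) : ℝ) := by
    unfold facLow
    have := @Nat.cast_div_le ℝ _ _ _ (q * q) (hornUp q z 30 (2 * q))
    push_cast at this
    rw [← hzdef]
    exact this
  have h2 : (A : ℝ) / B * ((h : ℝ) / q) ≤ x := by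
    have h3 : (A * h : ℕ) < (A * h / B + 1) * B := (Nat.div_lt_iff_lt_mul hB).1 (Nat.lt_succ_self _)
    have h4 : ((A * h : ℕ) : ℝ) < (((A * h / B + 1) * B : ℕ) : ℝ) := by exact_mod_cast h3
    rw [← hzdef] at h4
    push_cast at h4
    rw [hxdef, div_mul_div_comm, div_le_div_iff₀ (by positivity) hQ]
    nlinarith
  calc ((facLow q A B h : ℕ) : ℝ) / q ≤ ((q : ℝ) * q / ((hornUp q z 30 (2 * q) : ℕ) : ℝ)) / q := by
        exact div_le_div_of_nonneg_right h1 hQ.le
    _ = (((hornUp q z 30 (2 * q) : ℕ) : ℝ) / q)⁻¹ := by field_simp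
    _ ≤ (Real.exp x)⁻¹ := inv_anti₀ (Real.exp_pos _) hup
    _ = Real.exp (-x) := by rw [Real.exp_neg]
    _ ≤ _ := Real.exp_le_exp.2 (by linarith)

/-- The upper factor is an upper bound for the exponential. -/
theorem facUp_sound (q A B : ℕ) (hq : 0 < q) (hB : 0 < B) (h : ℕ) :
    Real.exp (-((A : ℝ) / B * ((h : ℝ) / q))) ≤ ((facUp q A B h : ℕ) : ℝ) / q := by
  have hQ : (0 : ℝ) < q := by exact_mod_cast hq
  have hBr : (0 : ℝ) < B := by exact_mod_cast hB
  set z : ℕ := A * h / B with hzdef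
  set x : ℝ := (z : ℝ) / q with hxdef
  have hx0 : 0 ≤ x := by positivity
  have hlow : ((hornLow q z 30 q : ℕ) : ℝ) / q ≤ Real.exp x := by
    apply hornLow_sound q hq z x rfl
    have hb := Real.sum_le_exp_of_nonneg hx0 31
    rw [sum_range_succ] at hb
    have h1 : ((q : ℝ) / q) = 1 := by field_simp
    unfold ps
    rw [h1, mul_one]
    exact hb
  have hden : (0 : ℝ) < ((hornLow q z 30 q : ℕ) : ℝ) := by
    have := hornLow_ge q z 30 (by norm_num) q le_rfl
    exact_mod_cast lt_of_lt_of_le hq this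
  have h1 : (q : ℝ) * q / ((hornLow q z 30 q : ℕ) : ℝ) ≤ ((facUp q A B h : ℕ) : ℝ) := by
    unfold facUp
    rw [← hzdef]
    have hpos : 0 < hornLow q z 30 q := by exact_mod_cast hden
    have h3 : q * q < (q * q / hornLow q z 30 q + 1) * hornLow q z 30 q :=
      (Nat.div_lt_iff_lt_mul hpos).1 (Nat.lt_succ_self _)
    have h4 : ((q * q : ℕ) : ℝ) < (((q * q / hornLow q z 30 q + 1) * hornLow q z 30 q : ℕ) : ℝ) := by
      exact_mod_cast h3
    rw [div_le_iff₀ hden]
    push_cast at h4 ⊢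
    linarith
  have h2 : x ≤ (A : ℝ) / B * ((h : ℝ) / q) := by
    have h3 : (z : ℝ) ≤ (A : ℝ) * h / B := by
      have := @Nat.cast_div_le ℝ _ _ _ (A * h) B
      push_cast at this
      rw [hzdef]
      exact this
    rw [le_div_iff₀ hBr] at h3
    rw [hxdef, div_mul_div_comm, div_le_div_iff₀ hQ (by positivity)]
    nlinarith
  calc Real.exp (-((A : ℝ) / B * ((h : ℝ) / q))) ≤ Real.exp (-x) := Real.exp_le_exp.2 (by linarith)
    _ = (Real.exp x)⁻¹ := by rw [Real.exp_neg]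
    _ ≤ (((hornLow q z 30 q : ℕ) : ℝ) / q)⁻¹ := inv_anti₀ (by positivity) hlow
    _ = ((q : ℝ) * q / ((hornLow q z 30 q : ℕ) : ℝ)) / q := by field_simp
    _ ≤ _ := div_le_div_of_nonneg_right h1 hQ.le

end Pool.Agent.H98.L
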