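import Pool.Agent.H98.L.Check

namespace Pool.Agent.H98.L

set_option maxRecDepth 1000000 in
theorem allOk_true : allOk = true := by decide +kernel

end Pool.Agent.H98.L
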