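import Pool.Agent.H98.L.Link

namespace Pool.Agent.H98.L

open Finset Filter Topology MeasureTheory ProbabilityTheory

theorem LipSet_nonempty (d n M : ℕ) : (LipSet d n M).Nonempty :=
  ⟨fun _ => 0, fun _ _ _ _ => by simp, fun _ _ => by simp⟩

/-- the uniform probability measure on the M-Lipschitz functions on the tree of depth n with all
leaf values in the interval from 0 to M -/
noncomputable def lipMeasure (d n M : ℕ) : Measure (Vtx d n → ℤ) := uniformOn (LipSet d n M)

theorem lipMeasure_isProb (d n M : ℕ) (hd : 1 ≤ d) : IsProbabilityMeasure (lipMeasure d n M) :=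
  isProbabilityMeasure_uniformOn (LipSet_finite d n M hd) (LipSet_nonempty d n M)

/-- restriction of a function on the tree of depth r + k to the subtree of depth r -/
def restr (d r k : ℕ) (f : Vtx d (r + k) → ℤ) : Vtx d r → ℤ :=
  fun v => f ⟨v.1, v.2.trans (Nat.le_add_right r k)⟩

theorem restr_measurable (d r k : ℕ) : Measurable (restr d r k) :=
  measurable_pi_iff.2 fun _ => measurable_pi_apply _

/-- the law, under the uniform measure at depth r + k, of the restriction to depth r -/
noncomputable def lipLaw (d M : ℕ) (hd : 1 ≤ d) (r k : ℕ) : ProbabilityMeasure (Vtx d r → ℤ) :=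
  ⟨(lipMeasure d (r + k) M).map (restr d r k), by
    have := lipMeasure_isProb d (r + k) M hd
    exact Measure.isProbabilityMeasure_map (restr_measurable d r k).aemeasurable⟩

/-- convergence of the law of the restriction to depth r, as the depth of the tree tends to
infinity -/
def ConvergesAt (d M : ℕ) (hd : 1 ≤ d) (r : ℕ) : Prop :=
  ∃ ν : ProbabilityMeasure (Vtx d r → ℤ), Tendsto (fun k => lipLaw d M hd r k) atTop (𝓝 ν)

/-- the event that the root value is j -/
def rootEvent (d : ℕ) (j : ℤ) : Set (Vtx d 0 → ℤ) := {f | f (root d 0) = j}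

theorem rootEvent_measurable (d : ℕ) (j : ℤ) : MeasurableSet (rootEvent d j) := by
  have h1 : rootEvent d j = (fun f : Vtx d 0 → ℤ => f (root d 0)) ⁻¹' {j} := by
    ext f; simp [rootEvent]
  rw [h1]
  exact (measurable_pi_apply (root d 0)) (measurableSet_singleton j)

theorem lipLaw_root (d M : ℕ) (hd : 1 ≤ d) (k : ℕ) (j : ℤ) :
    (lipLaw d M hd 0 k : Measure (Vtx d 0 → ℤ)).real (rootEvent d j)
      = (N d (0 + k) M j : ℝ) / ((LipSet d (0 + k) M).ncard : ℝ) := by
  have hfin := LipSet_finite d (0 + k) M hd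
  have h1 : (lipLaw d M hd 0 k : Measure (Vtx d 0 → ℤ)) (rootEvent d j)
      = ((LipSet d (0 + k) M).ncard : ENNReal)⁻¹ * (N d (0 + k) M j : ENNReal) := by
    change ((lipMeasure d (0 + k) M).map (restr d 0 k)) (rootEvent d j) = _
    rw [Measure.map_apply (restr_measurable d 0 k) (rootEvent_measurable d j)]
    unfold lipMeasure uniformOn
    rw [cond_apply hfin.measurableSet]
    have h2 : LipSet d (0 + k) M ∩ restr d 0 k ⁻¹' rootEvent d j = RSet d (0 + k) M j := rfl
    rw [h2, Measure.count_apply_finite _ hfin, Measure.count_apply_finite _ (RSet_finite d (0 + k) M hd j)]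
    unfold N
    rw [Set.ncard_eq_toFinset_card _ hfin, Set.ncard_eq_toFinset_card _ (RSet_finite d (0 + k) M hd j)]
  unfold Measure.real
  rw [h1, ENNReal.toReal_mul, ENNReal.toReal_inv]
  simp only [ENNReal.toReal_natCast]
  rw [div_eq_mul_inv, mul_comm]

/-- indicator of the root event as a bounded continuous function -/
noncomputable def rootTest (d : ℕ) (j : ℤ) : BoundedContinuousFunction (Vtx d 0 → ℤ) ℝ :=
  BoundedContinuousFunction.ofNormedAddCommGroup (fun f => if f (root d 0) = j then (1 : ℝ) else 0)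
    (by
      have h1 : Continuous (fun z : ℤ => if z = j then (1 : ℝ) else 0) := continuous_of_discreteTopology
      exact h1.comp (continuous_apply (root d 0))) 1
    (by intro f; split_ifs <;> simp)

theorem integral_rootTest (d : ℕ) (j : ℤ) (μ : Measure (Vtx d 0 → ℤ)) [IsProbabilityMeasure μ] :
    ∫ f, rootTest d j f ∂μ = μ.real (rootEvent d j) := by
  have h1 : (fun f => rootTest d j f) = (rootEvent d j).indicator (fun _ => (1 : ℝ)) := by
    funext f
    change (if f (root d 0) = j then (1 : ℝ) else 0) = _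
    unfold Set.indicator rootEvent
    simp only [Set.mem_ofPred_eq]
  rw [h1, integral_indicator_const _ (rootEvent_measurable d j)]
  simp

theorem not_convergesAt : ∀ᶠ m : ℕ in atTop, ∀ hd : 1 ≤ 3 * m, ¬ ConvergesAt (3 * m) (4 * m) hd 0 := by
  filter_upwards [N_gap, eventually_ge_atTop 1] with m hgap hm hd
  rintro ⟨ν, hν⟩
  rw [ProbabilityMeasure.tendsto_iff_forall_integral_tendsto] at hν
  have hlim : ∀ j : ℤ, Tendsto (fun k => (N (3 * m) (0 + k) (4 * m) j : ℝ)
      / ((LipSet (3 * m) (0 + k) (4 * m)).ncard : ℝ)) atTop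
      (𝓝 ((ν : Measure (Vtx (3 * m) 0 → ℤ)).real (rootEvent (3 * m) j))) := by
    intro j
    have h1 := hν (rootTest (3 * m) j)
    rw [integral_rootTest] at h1
    refine h1.congr fun k => ?_
    rw [integral_rootTest, lipLaw_root]
  have hcard : ∀ k : ℕ, (0 : ℝ) < ((LipSet (3 * m) (0 + k) (4 * m)).ncard : ℝ) := by
    intro k
    exact_mod_cast (Set.ncard_pos (LipSet_finite _ _ _ hd)).2 (LipSet_nonempty _ _ _)
  set a : ℤ → ℝ := fun j => (ν : Measure (Vtx (3 * m) 0 → ℤ)).real (rootEvent (3 * m) j) with ha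
  have hmax : ∀ j : ℤ, a j ≤ a (2 * m) := by
    intro j
    refine le_of_tendsto_of_tendsto' (hlim j) (hlim (2 * m)) fun k => ?_
    exact div_le_div_of_nonneg_right (by exact_mod_cast N_le_center m (0 + k) hm j) (hcard k).le
  have hpos : 0 < a (2 * m) := by
    by_contra hcon
    have h0 : ∀ j : ℤ, (ν : Measure (Vtx (3 * m) 0 → ℤ)) (rootEvent (3 * m) j) = 0 := by
      intro j
      have h1 : a j ≤ 0 := (hmax j).trans (not_lt.1 hcon)
      have h2 : 0 ≤ a j := measureReal_nonneg
      have h3 : a j = 0 := le_antisymm h1 h2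
      exact (measureReal_eq_zero_iff).1 h3
    have huniv : (Set.univ : Set (Vtx (3 * m) 0 → ℤ)) = ⋃ j : ℤ, rootEvent (3 * m) j := by
      ext f
      simp [rootEvent]
    have h4 : (ν : Measure (Vtx (3 * m) 0 → ℤ)) Set.univ = 0 := by
      rw [huniv]
      exact measure_iUnion_null h0
    have h5 : (ν : Measure (Vtx (3 * m) 0 → ℤ)) Set.univ = 1 := measure_univ
    rw [h4] at h5
    exact zero_ne_one h5
  have heven : 2 * a 0 ≤ a (2 * m) := by
    have hsub : Tendsto (fun k : ℕ => 36 + 2 * k) atTop atTop :=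
      tendsto_atTop_mono (fun k => by omega : ∀ k : ℕ, k ≤ 36 + 2 * k) tendsto_id
    have h1 := ((hlim 0).comp hsub).const_mul 2
    have h2 := (hlim (2 * m)).comp hsub
    refine le_of_tendsto_of_tendsto' h1 h2 fun k => ?_
    simp only [Function.comp]
    rw [← mul_div_assoc]
    refine div_le_div_of_nonneg_right ?_ (hcard _).le
    have := (hgap k).1
    rw [Nat.zero_add]
    exact_mod_cast this
  have hodd : 3 * a (2 * m) ≤ 5 * a 0 := by
    have hsub : Tendsto (fun k : ℕ => 36 + 2 * k + 1) atTop atTop :=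
      tendsto_atTop_mono (fun k => by omega : ∀ k : ℕ, k ≤ 36 + 2 * k + 1) tendsto_id
    have h1 := ((hlim (2 * m)).comp hsub).const_mul 3
    have h2 := ((hlim 0).comp hsub).const_mul 5
    refine le_of_tendsto_of_tendsto' h1 h2 fun k => ?_
    simp only [Function.comp]
    rw [← mul_div_assoc, ← mul_div_assoc]
    refine div_le_div_of_nonneg_right ?_ (hcard _).le
    have := (hgap k).2
    rw [Nat.zero_add]
    exact_mod_cast this
  linarith

end Pool.Agent.H98.L
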