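import Mathlib

namespace Pool.Agent.H98.L

open Finset

/-- Vertices of the finite tree: words over d letters of length at most n; the root is the
empty word, the children of v are the words v ++ [a]. -/
abbrev Vtx (d n : ℕ) := {v : List (Fin d) // v.length ≤ n}

/-- the root -/
def root (d n : ℕ) : Vtx d n := ⟨[], Nat.zero_le n⟩

/-- M-Lipschitz functions on the finite tree with all leaf values in the interval from 0 to M. -/
def LipSet (d n M : ℕ) : Set (Vtx d n → ℤ) :=
  {f | (∀ (v w : Vtx d n) (a : Fin d), w.1 = v.1 ++ [a] → |f v - f w| ≤ (M : ℤ)) ∧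
    ∀ v : Vtx d n, v.1.length = n → 0 ≤ f v ∧ f v ≤ (M : ℤ)}

instance (d n : ℕ) : Finite (Vtx d n) := (List.finite_length_le (Fin d) n).to_subtype

theorem LipSet_bound (d n M : ℕ) (hd : 1 ≤ d) (f : Vtx d n → ℤ) (hf : f ∈ LipSet d n M) (i : ℕ) :
    ∀ v : Vtx d n, v.1.length + i = n → -((i : ℤ) * M) ≤ f v ∧ f v ≤ M + (i : ℤ) * M := by
  induction i with
  | zero =>
    intro v hv
    have := hf.2 v (by simpa using hv)
    push_cast; constructor <;> linarith
  | succ i ih =>
    intro v hv
    have hlen : (v.1 ++ [(⟨0, hd⟩ : Fin d)]).length ≤ n := by simp; omega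
    have h1 := ih ⟨v.1 ++ [(⟨0, hd⟩ : Fin d)], hlen⟩ (by simp; omega)
    have h2 := hf.1 v ⟨v.1 ++ [(⟨0, hd⟩ : Fin d)], hlen⟩ ⟨0, hd⟩ rfl
    rw [abs_le] at h2
    push_cast
    constructor <;> nlinarith

theorem LipSet_finite (d n M : ℕ) (hd : 1 ≤ d) : (LipSet d n M).Finite := by
  have h : (Set.pi Set.univ (fun _ : Vtx d n => Set.Icc (-((n : ℤ) * M)) (M + (n : ℤ) * M))).Finite :=
    Set.Finite.pi (fun _ => Set.finite_Icc _ _)
  refine h.subset fun f hf v _ => ?_
  have h1 := LipSet_bound d n M hd f hf (n - v.1.length) v (by have := v.2; omega)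
  have h2 : ((n - v.1.length : ℕ) : ℤ) ≤ n := by omega
  have h3 : ((n - v.1.length : ℕ) : ℤ) * M ≤ (n : ℤ) * M :=
    mul_le_mul_of_nonneg_right h2 (by positivity)
  constructor <;> linarith [h1.1, h1.2]

/-- functions with root value k -/
def RSet (d n M : ℕ) (k : ℤ) : Set (Vtx d n → ℤ) := {f | f ∈ LipSet d n M ∧ f (root d n) = k}

/-- functions whose root value is within M of k -/
def TSet (d n M : ℕ) (k : ℤ) : Set (Vtx d n → ℤ) :=
  {f | f ∈ LipSet d n M ∧ |k - f (root d n)| ≤ (M : ℤ)}

/-- number of functions with root value k -/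
noncomputable def N (d n M : ℕ) (k : ℤ) : ℕ := (RSet d n M k).ncard

theorem RSet_finite (d n M : ℕ) (hd : 1 ≤ d) (k : ℤ) : (RSet d n M k).Finite :=
  (LipSet_finite d n M hd).subset fun _ h => h.1

theorem TSet_finite (d n M : ℕ) (hd : 1 ≤ d) (k : ℤ) : (TSet d n M k).Finite :=
  (LipSet_finite d n M hd).subset fun _ h => h.1

theorem TSet_ncard (d n M : ℕ) (hd : 1 ≤ d) (k : ℤ) :
    (TSet d n M k).ncard = ∑ j ∈ Finset.Icc (k - M) (k + M), N d n M j := by
  classical
  have h1 : TSet d n M k = ⋃ j ∈ Finset.Icc (k - M) (k + M), RSet d n M j := by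
    ext f
    simp only [TSet, RSet, Set.mem_ofPred_eq, Set.mem_iUnion, Finset.mem_Icc, exists_prop, abs_le]
    constructor
    · rintro ⟨hf, h1, h2⟩
      exact ⟨f (root d n), ⟨by linarith, by linarith⟩, hf, rfl⟩
    · rintro ⟨j, ⟨h1, h2⟩, hf, rfl⟩
      exact ⟨hf, by linarith, by linarith⟩
  rw [h1]
  unfold N
  have h2 : ∀ s : Finset ℤ, (⋃ j ∈ s, RSet d n M j).ncard = ∑ j ∈ s, (RSet d n M j).ncard := by
    intro s
    induction s using Finset.induction_on with
    | empty => simp
    | insert a s ha ih =>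
      rw [Finset.sum_insert ha, Finset.set_biUnion_insert, ← ih]
      refine Set.ncard_union_eq ?_ (RSet_finite d n M hd a) ?_
      · rw [Set.disjoint_left]
        intro f hf hf'
        simp only [Set.mem_iUnion, exists_prop] at hf'
        obtain ⟨j, hj, hf'⟩ := hf'
        have : a = j := hf.2.symm.trans hf'.2
        exact ha (this ▸ hj)
      · exact (LipSet_finite d n M hd).subset fun f hf => by
          simp only [Set.mem_iUnion, exists_prop] at hf
          obtain ⟨j, _, hf⟩ := hf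
          exact hf.1
  exact h2 _

/-- glue a root value and d functions on the subtrees -/
def glue (d n : ℕ) (k : ℤ) (g : Fin d → (Vtx d n → ℤ)) : Vtx d (n + 1) → ℤ
  | ⟨[], _⟩ => k
  | ⟨a :: w, h⟩ => g a ⟨w, by simpa using h⟩

theorem RSet_succ_ncard (d n M : ℕ) (k : ℤ) :
    N d (n + 1) M k = ((TSet d n M k).ncard) ^ d := by
  classical
  have hcard : (TSet d n M k).ncard = Nat.card (TSet d n M k) := rfl
  have hN : N d (n + 1) M k = Nat.card (RSet d (n + 1) M k) := rfl
  rw [hcard, hN]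
  have hfun : Nat.card (Fin d → (TSet d n M k)) = (Nat.card (TSet d n M k)) ^ d := by
    rw [Nat.card_fun]; simp
  rw [← hfun]
  symm
  refine Nat.card_congr ?_
  refine
    { toFun := fun g => ⟨glue d n k (fun a => (g a).1), ?_⟩
      invFun := fun f a => ⟨fun w => f.1 ⟨a :: w.1, by simpa using w.2⟩, ?_⟩
      left_inv := ?_
      right_inv := ?_ }
  · refine ⟨⟨?_, ?_⟩, rfl⟩
    · rintro ⟨v, hv⟩ ⟨w, hw⟩ b hvw
      simp only at hvw
      cases v with
      | nil =>
        subst hvw
        have h1 := (g b).2.2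
        have h2 : glue d n k (fun a => (g a).1) ⟨[] ++ [b], hw⟩ = (g b).1 (root d n) := rfl
        have h3 : glue d n k (fun a => (g a).1) ⟨[], hv⟩ = k := rfl
        rw [h2, h3]; exact h1
      | cons a v =>
        subst hvw
        have hv' : v.length ≤ n := by simpa using hv
        have hw' : (v ++ [b]).length ≤ n := by simpa using hw
        exact (g a).2.1.1 ⟨v, hv'⟩ ⟨v ++ [b], hw'⟩ b rfl
    · rintro ⟨v, hv⟩ hlen
      cases v with
      | nil => simp at hlen
      | cons a v =>
        have hv' : v.length ≤ n := by simpa using hv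
        exact (g a).2.1.2 ⟨v, hv'⟩ (by simpa using hlen)
  · refine ⟨⟨?_, ?_⟩, ?_⟩
    · rintro ⟨v, hv⟩ ⟨w, hw⟩ b hvw
      simp only at hvw
      subst hvw
      exact f.2.1.1 ⟨a :: v, by simpa using hv⟩ ⟨a :: (v ++ [b]), by simpa using hw⟩ b rfl
    · rintro ⟨v, hv⟩ hlen
      exact f.2.1.2 ⟨a :: v, by simpa using hv⟩ (by simpa using hlen)
    · have h1 := f.2.1.1 (root d (n + 1)) ⟨[a], by simp⟩ a rfl
      have h2 := f.2.2
      rw [h2] at h1
      exact h1
  · intro g
    funext a
    rfl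
  · intro f
    apply Subtype.ext
    funext ⟨v, hv⟩
    cases v with
    | nil => exact f.2.2.symm
    | cons a v => rfl

theorem N_succ (d n M : ℕ) (hd : 1 ≤ d) (k : ℤ) :
    N d (n + 1) M k = (∑ j ∈ Finset.Icc (k - M) (k + M), N d n M j) ^ d := by
  rw [RSet_succ_ncard, TSet_ncard d n M hd]

theorem N_zero (d M : ℕ) (k : ℤ) : N d 0 M k = if 0 ≤ k ∧ k ≤ M then 1 else 0 := by
  have hv : ∀ v : Vtx d 0, v = root d 0 := by
    rintro ⟨v, hv⟩
    apply Subtype.ext
    exact List.length_eq_zero_iff.1 (Nat.le_zero.1 hv)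
  unfold N
  split_ifs with h
  · have : RSet d 0 M k = {fun _ => k} := by
      ext f
      simp only [RSet, LipSet, Set.mem_ofPred_eq, Set.mem_singleton_iff]
      constructor
      · rintro ⟨_, hf⟩
        funext v
        rw [hv v, hf]
      · rintro rfl
        refine ⟨⟨?_, fun v _ => h⟩, rfl⟩
        intro v w a _
        simp
    rw [this, Set.ncard_singleton]
  · have : RSet d 0 M k = ∅ := by
      ext f
      simp only [RSet, LipSet, Set.mem_ofPred_eq, Set.mem_empty_iff_false, iff_false]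
      rintro ⟨⟨_, hf⟩, rfl⟩
      exact h (hf (root d 0) rfl)
    rw [this, Set.ncard_empty]

end Pool.Agent.H98.L
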