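import Pool.Agent.H98.L.Seq
import Pool.Agent.H98.L.Tree

namespace Pool.Agent.H98.L

open Finset Filter Topology MeasureTheory ProbabilityTheory

/-- the counts, normalised, are the sequence useq -/
theorem N_link (m n : ℕ) (hm : 1 ≤ m) :
    0 < (N (3 * m) n (4 * m) (2 * m) : ℝ) ∧
      ∀ t : ℤ, (N (3 * m) n (4 * m) (2 * m + t) : ℝ)
        = (N (3 * m) n (4 * m) (2 * m) : ℝ) * useq m n t := by
  induction n with
  | zero =>
    have h0 : N (3 * m) 0 (4 * m) (2 * m) = 1 := by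
      rw [N_zero, if_pos]; constructor <;> (push_cast; omega)
    rw [h0]
    refine ⟨by norm_num, fun t => ?_⟩
    rw [N_zero]
    unfold useq
    rw [Function.iterate_zero_apply]
    unfold u0
    have : (0 ≤ (2 * (m : ℤ) + t) ∧ (2 * (m : ℤ) + t) ≤ ((4 * m : ℕ) : ℤ)) ↔ |t| ≤ ((2 * m : ℕ) : ℤ) := by
      rw [abs_le]; push_cast; constructor <;> (rintro ⟨h1, h2⟩; constructor <;> omega)
    simp only [this]
    split_ifs <;> simp
  | succ n ih =>
    obtain ⟨hpos, hn⟩ := ih
    set K : ℝ := (N (3 * m) n (4 * m) (2 * m) : ℝ) with hK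
    have hsum : ∀ t : ℤ, ((∑ j ∈ Finset.Icc (2 * (m : ℤ) + t - (4 * m : ℕ)) (2 * (m : ℤ) + t + (4 * m : ℕ)),
        N (3 * m) n (4 * m) j : ℕ) : ℝ) = K * W (2 * m) (useq m n) t := by
      intro t
      push_cast
      unfold W
      rw [mul_sum]
      symm
      refine Finset.sum_bij (fun (j : ℕ) _ => 2 * (m : ℤ) + (t - 2 * ((2 * m : ℕ) : ℤ) + j)) ?_ ?_ ?_ ?_
      · intro j hj
        have := Finset.mem_range.1 hj
        rw [Finset.mem_Icc]; push_cast; constructor <;> omega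
      · intro j1 _ j2 _ h
        omega
      · intro b hb
        rw [Finset.mem_Icc] at hb
        refine ⟨(b - 2 * (m : ℤ) - t + 4 * m).toNat, ?_, ?_⟩
        · rw [Finset.mem_range]; push_cast at hb; omega
        · push_cast at hb ⊢; omega
      · intro j _
        rw [hn]
    have hstep : ∀ t : ℤ, (N (3 * m) (n + 1) (4 * m) (2 * m + t) : ℝ)
        = (K * W (2 * m) (useq m n) t) ^ (3 * m) := by
      intro t
      rw [N_succ (3 * m) n (4 * m) (by omega)]
      rw [← hsum t]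
      push_cast
      rfl
    have h0 : (N (3 * m) (n + 1) (4 * m) (2 * m) : ℝ) = (K * W (2 * m) (useq m n) 0) ^ (3 * m) := by
      have := hstep 0
      rw [add_zero] at this
      exact this
    have hW := W_zero_pos (2 * m) (EA_useq m n)
    rw [h0]
    refine ⟨by positivity, fun t => ?_⟩
    rw [hstep]
    have e : useq m (n + 1) t = nxt (2 * m) (3 * m) (useq m n) t := by
      unfold useq
      rw [Function.iterate_succ_apply']
    rw [e]
    unfold nxt
    rw [← mul_pow]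
    congr 1
    field_simp

/-- the number of functions with root value 0 against the number with root value 2m = M/2 -/
theorem N_gap : ∀ᶠ m : ℕ in atTop, ∀ k : ℕ,
    2 * N (3 * m) (36 + 2 * k) (4 * m) 0 ≤ N (3 * m) (36 + 2 * k) (4 * m) (2 * m) ∧
      3 * N (3 * m) (36 + 2 * k + 1) (4 * m) (2 * m) ≤ 5 * N (3 * m) (36 + 2 * k + 1) (4 * m) 0 := by
  filter_upwards [eventually_big, eventually_ge_atTop 1] with m hb hm k
  obtain ⟨g1, g2⟩ := useq_gap m hb k
  have key : ∀ n : ℕ, (N (3 * m) n (4 * m) 0 : ℝ)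
      = (N (3 * m) n (4 * m) (2 * m) : ℝ) * useq m n ((2 * m : ℕ) : ℤ) := by
    intro n
    have h1 := (N_link m n hm).2 (-((2 * m : ℕ) : ℤ))
    rw [(EA_useq m n).even] at h1
    have h2 : (2 * (m : ℤ) + -((2 * m : ℕ) : ℤ)) = 0 := by push_cast; ring
    rw [h2] at h1
    exact h1
  constructor
  · have h1 := key (36 + 2 * k)
    have h2 := (N_link m (36 + 2 * k) hm).1
    have h3 : (2 : ℝ) * (N (3 * m) (36 + 2 * k) (4 * m) 0 : ℝ) ≤ (N (3 * m) (36 + 2 * k) (4 * m) (2 * m) : ℝ) := by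
      rw [h1]; nlinarith
    exact_mod_cast h3
  · have h1 := key (36 + 2 * k + 1)
    have h2 := (N_link m (36 + 2 * k + 1) hm).1
    have h3 : (3 : ℝ) * (N (3 * m) (36 + 2 * k + 1) (4 * m) (2 * m) : ℝ) ≤ 5 * (N (3 * m) (36 + 2 * k + 1) (4 * m) 0 : ℝ) := by
      rw [h1]; nlinarith
    exact_mod_cast h3

theorem N_le_center (m n : ℕ) (hm : 1 ≤ m) (k : ℤ) : N (3 * m) n (4 * m) k ≤ N (3 * m) n (4 * m) (2 * m) := by
  have h1 := (N_link m n hm).2 (k - 2 * m)
  have h2 := (N_link m n hm).1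
  have h3 := (EA_useq m n).le_one (k - 2 * m)
  rw [show (2 * (m : ℤ) + (k - 2 * m)) = k by ring] at h1
  have h4 : (N (3 * m) n (4 * m) k : ℝ) ≤ (N (3 * m) n (4 * m) (2 * m) : ℝ) := by
    rw [h1]; nlinarith
  exact_mod_cast h4

end Pool.Agent.H98.L
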