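import Pool.Agent.H98.L.ExpBd

namespace Pool.Agent.H98.L

open Real Finset

/-- initial sums of a fixed point list, as real numbers -/
noncomputable def csum (q : ℕ) (l : List ℕ) (j : ℕ) : ℝ := ∑ b ∈ range j, ((l.getD b 0 : ℕ) : ℝ) / q

theorem csum_zero (q : ℕ) (l : List ℕ) : csum q l 0 = 0 := by simp [csum]

theorem csum_cons (q : ℕ) (h : ℕ) (t : List ℕ) (j : ℕ) :
    csum q (h :: t) (j + 1) = (h : ℝ) / q + csum q t j := by
  unfold csum
  rw [sum_range_succ']
  simp [add_comm]

theorem accLow_length (q A B : ℕ) (l : List ℕ) : ∀ (P : ℕ) (acc : List ℕ),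
    (accLow q A B l P acc).length = l.length + 1 + acc.length := by
  induction l with
  | nil => intro P acc; simp [accLow]; omega
  | cons h t ih => intro P acc; simp only [accLow]; rw [ih]; simp; omega

theorem accUp_length (q A B : ℕ) (l : List ℕ) : ∀ (P : ℕ) (acc : List ℕ),
    (accUp q A B l P acc).length = l.length + 1 + acc.length := by
  induction l with
  | nil => intro P acc; simp [accUp]; omega
  | cons h t ih => intro P acc; simp only [accUp]; rw [ih]; simp; omega

theorem accLow_old (q A B : ℕ) (l : List ℕ) : ∀ (P : ℕ) (acc : List ℕ) (i : ℕ),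
    (accLow q A B l P acc).getD (l.length + 1 + i) 0 = acc.getD i 0 := by
  induction l with
  | nil =>
    intro P acc i
    simp only [accLow, List.length_nil]
    rw [show 0 + 1 + i = i + 1 by omega, List.getD_cons_succ]
  | cons h t ih =>
    intro P acc i
    simp only [accLow, List.length_cons]
    rw [show t.length + 1 + 1 + i = t.length + 1 + (i + 1) by omega, ih, List.getD_cons_succ]

theorem accUp_old (q A B : ℕ) (l : List ℕ) : ∀ (P : ℕ) (acc : List ℕ) (i : ℕ),
    (accUp q A B l P acc).getD (l.length + 1 + i) 0 = acc.getD i 0 := by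
  induction l with
  | nil =>
    intro P acc i
    simp only [accUp, List.length_nil]
    rw [show 0 + 1 + i = i + 1 by omega, List.getD_cons_succ]
  | cons h t ih =>
    intro P acc i
    simp only [accUp, List.length_cons]
    rw [show t.length + 1 + 1 + i = t.length + 1 + (i + 1) by omega, ih, List.getD_cons_succ]

theorem accLow_new (q A B : ℕ) (hq : 0 < q) (hB : 0 < B) (l : List ℕ)
    (hl : ∀ h ∈ l, A * h / B + 1 ≤ q) : ∀ (P : ℕ) (acc : List ℕ) (X : ℝ),
    (P : ℝ) / q ≤ Real.exp (-((A : ℝ) / B * X)) → ∀ i, i ≤ l.length →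
    (((accLow q A B l P acc).getD i 0 : ℕ) : ℝ) / q ≤
      Real.exp (-((A : ℝ) / B * (X + csum q l (l.length - i)))) := by
  have hQ : (0 : ℝ) < q := by exact_mod_cast hq
  induction l with
  | nil =>
    intro P acc X hP i hi
    simp only [List.length_nil, Nat.le_zero] at hi
    subst hi
    simpa [accLow, csum_zero] using hP
  | cons h t ih =>
    intro P acc X hP i hi
    have hP' : (((P * facLow q A B h / q : ℕ)) : ℝ) / q
        ≤ Real.exp (-((A : ℝ) / B * (X + (h : ℝ) / q))) := by
      have h1 : (((P * facLow q A B h / q : ℕ)) : ℝ) ≤ (P : ℝ) * (facLow q A B h : ℕ) / q := by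
        have := @Nat.cast_div_le ℝ _ _ _ (P * facLow q A B h) q
        push_cast at this
        exact this
      have h2 := facLow_sound q A B hq hB h (hl h (by simp))
      calc (((P * facLow q A B h / q : ℕ)) : ℝ) / q ≤ ((P : ℝ) * (facLow q A B h : ℕ) / q) / q :=
            div_le_div_of_nonneg_right h1 hQ.le
        _ = ((P : ℝ) / q) * (((facLow q A B h : ℕ) : ℝ) / q) := by field_simp
        _ ≤ Real.exp (-((A : ℝ) / B * X)) * Real.exp (-((A : ℝ) / B * ((h : ℝ) / q))) :=
            mul_le_mul hP h2 (by positivity) (Real.exp_pos _).le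
        _ = _ := by rw [← Real.exp_add]; congr 1; ring
    simp only [accLow]
    rcases Nat.lt_or_ge i (t.length + 1) with hi' | hi'
    · have := ih (fun a ha => hl a (by simp [ha])) (P * facLow q A B h / q) (P :: acc)
        (X + (h : ℝ) / q) hP' i (by omega)
      refine this.trans (le_of_eq ?_)
      congr 3
      rw [show (h :: t).length - i = (t.length - i) + 1 by simp only [List.length_cons]; omega,
        csum_cons]
      ring
    · have hii : i = t.length + 1 := by simp only [List.length_cons] at hi; omega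
      subst hii
      have := accLow_old q A B t (P * facLow q A B h / q) (P :: acc) 0
      rw [Nat.add_zero] at this
      rw [this]
      simpa [csum_zero] using hP

theorem accUp_new (q A B : ℕ) (hq : 0 < q) (hB : 0 < B) (l : List ℕ) : ∀ (P : ℕ) (acc : List ℕ) (X : ℝ),
    Real.exp (-((A : ℝ) / B * X)) ≤ (P : ℝ) / q → ∀ i, i ≤ l.length →
      min 1 (Real.exp (-((A : ℝ) / B * (X + csum q l (l.length - i))))) ≤
      (((accUp q A B l P acc).getD i 0 : ℕ) : ℝ) / q := by
  have hQ : (0 : ℝ) < q := by exact_mod_cast hq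
  have hmin : ∀ (P : ℕ) (X : ℝ), Real.exp (-((A : ℝ) / B * X)) ≤ (P : ℝ) / q →
      min 1 (Real.exp (-((A : ℝ) / B * X))) ≤ ((min P q : ℕ) : ℝ) / q := by
    intro P X hP
    rcases Nat.le_total P q with h | h
    · rw [Nat.min_eq_left h]
      exact (min_le_right _ _).trans hP
    · rw [Nat.min_eq_right h, div_self hQ.ne']
      exact min_le_left _ _
  induction l with
  | nil =>
    intro P acc X hP i hi
    simp only [List.length_nil, Nat.le_zero] at hi
    subst hi
    have := hmin P X hP
    simpa [accUp, csum_zero] using this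
  | cons h t ih =>
    intro P acc X hP i hi
    have hP' : Real.exp (-((A : ℝ) / B * (X + (h : ℝ) / q))) ≤
        (((P * facUp q A B h / q + 1 : ℕ)) : ℝ) / q := by
      have h1 : (P : ℝ) * (facUp q A B h : ℕ) / q ≤ (((P * facUp q A B h / q + 1 : ℕ)) : ℝ) := by
        have h3 : P * facUp q A B h < (P * facUp q A B h / q + 1) * q :=
          (Nat.div_lt_iff_lt_mul hq).1 (Nat.lt_succ_self _)
        have h4 : ((P * facUp q A B h : ℕ) : ℝ) < (((P * facUp q A B h / q + 1) * q : ℕ) : ℝ) := by
          exact_mod_cast h3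
        rw [div_le_iff₀ hQ]
        push_cast at h4 ⊢
        linarith
      have h2 := facUp_sound q A B hq hB h
      calc Real.exp (-((A : ℝ) / B * (X + (h : ℝ) / q)))
          = Real.exp (-((A : ℝ) / B * X)) * Real.exp (-((A : ℝ) / B * ((h : ℝ) / q))) := by
            rw [← Real.exp_add]; congr 1; ring
        _ ≤ ((P : ℝ) / q) * (((facUp q A B h : ℕ) : ℝ) / q) :=
            mul_le_mul hP h2 (Real.exp_pos _).le (by positivity)
        _ = ((P : ℝ) * (facUp q A B h : ℕ) / q) / q := by field_simp
        _ ≤ _ := div_le_div_of_nonneg_right h1 hQ.le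
    simp only [accUp]
    rcases Nat.lt_or_ge i (t.length + 1) with hi' | hi'
    · have := ih (P * facUp q A B h / q + 1) (min P q :: acc)
        (X + (h : ℝ) / q) hP' i (by omega)
      refine le_trans (le_of_eq ?_) this
      congr 4
      rw [show (h :: t).length - i = (t.length - i) + 1 by simp only [List.length_cons]; omega,
        csum_cons]
      ring
    · have hii : i = t.length + 1 := by simp only [List.length_cons] at hi; omega
      subst hii
      have := accUp_old q A B t (P * facUp q A B h / q + 1) (min P q :: acc) 0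
      rw [Nat.add_zero] at this
      rw [this]
      have := hmin P X hP
      simpa [csum_zero] using this

theorem csum_dropLast (q : ℕ) (l : List ℕ) (j : ℕ) (hj : j ≤ l.length - 1) :
    csum q l.dropLast j = csum q l j := by
  unfold csum
  refine sum_congr rfl fun b hb => ?_
  have hb' : b < l.length - 1 := lt_of_lt_of_le (mem_range.1 hb) hj
  rw [List.getD_eq_getElem?_getD, List.getD_eq_getElem?_getD, List.getElem?_dropLast]
  simp [hb']

theorem stepLow_length (q A B : ℕ) (l : List ℕ) (hl : l ≠ []) : (stepLow q A B l).length = l.length := by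
  unfold stepLow
  rw [accLow_length]
  have : 0 < l.length := List.length_pos_iff.2 hl
  simp; omega

theorem stepUp_length (q A B : ℕ) (l : List ℕ) (hl : l ≠ []) : (stepUp q A B l).length = l.length := by
  unfold stepUp
  rw [accUp_length]
  have : 0 < l.length := List.length_pos_iff.2 hl
  simp; omega

theorem stepLow_sound (q A B : ℕ) (hq : 0 < q) (hB : 0 < B) (l : List ℕ) (hl : l ≠ [])
    (hle : ∀ h ∈ l, A * h / B + 1 ≤ q) (i : ℕ) (hi : i < l.length) :
    (((stepLow q A B l).getD i 0 : ℕ) : ℝ) / q ≤
      Real.exp (-((A : ℝ) / B * (2 * (((l.headD 0 : ℕ) : ℝ) / q) + csum q l (l.length - 1 - i)))) := by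
  have hQ : (0 : ℝ) < q := by exact_mod_cast hq
  have hpos : 0 < l.length := List.length_pos_iff.2 hl
  have hhead : l.headD 0 ∈ l := by
    cases l with
    | nil => exact absurd rfl hl
    | cons a t => simp
  have h0 := facLow_sound q A B hq hB (l.headD 0) (hle _ hhead)
  have hP : (((facLow q A B (l.headD 0) * facLow q A B (l.headD 0) / q : ℕ)) : ℝ) / q
      ≤ Real.exp (-((A : ℝ) / B * (2 * (((l.headD 0 : ℕ) : ℝ) / q)))) := by
    have h1 : (((facLow q A B (l.headD 0) * facLow q A B (l.headD 0) / q : ℕ)) : ℝ) ≤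
        ((facLow q A B (l.headD 0) : ℕ) : ℝ) * (facLow q A B (l.headD 0) : ℕ) / q := by
      have := @Nat.cast_div_le ℝ _ _ _ (facLow q A B (l.headD 0) * facLow q A B (l.headD 0)) q
      push_cast at this
      exact this
    calc (((facLow q A B (l.headD 0) * facLow q A B (l.headD 0) / q : ℕ)) : ℝ) / q
        ≤ (((facLow q A B (l.headD 0) : ℕ) : ℝ) * (facLow q A B (l.headD 0) : ℕ) / q) / q :=
          div_le_div_of_nonneg_right h1 hQ.le
      _ = (((facLow q A B (l.headD 0) : ℕ) : ℝ) / q) * (((facLow q A B (l.headD 0) : ℕ) : ℝ) / q) := by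
          field_simp
      _ ≤ Real.exp (-((A : ℝ) / B * (((l.headD 0 : ℕ) : ℝ) / q))) *
          Real.exp (-((A : ℝ) / B * (((l.headD 0 : ℕ) : ℝ) / q))) :=
          mul_le_mul h0 h0 (by positivity) (Real.exp_pos _).le
      _ = _ := by rw [← Real.exp_add]; congr 1; ring
  have := accLow_new q A B hq hB l.dropLast (fun h hh => hle h (List.mem_of_mem_dropLast hh))
    _ [] _ hP i (by simp; omega)
  unfold stepLow
  refine this.trans (le_of_eq ?_)
  rw [List.length_dropLast, csum_dropLast _ _ _ (by omega)]

theorem stepUp_sound (q A B : ℕ) (hq : 0 < q) (hB : 0 < B) (l : List ℕ) (hl : l ≠ [])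
    (X : ℝ) (hX : Real.exp (-((A : ℝ) / B * X)) ≤ ((q + 1 : ℕ) : ℝ) / q)
    (i : ℕ) (hi : i < l.length) :
    min 1 (Real.exp (-((A : ℝ) / B * (X + csum q l (l.length - 1 - i))))) ≤
      (((stepUp q A B l).getD i 0 : ℕ) : ℝ) / q := by
  have hpos : 0 < l.length := List.length_pos_iff.2 hl
  have := accUp_new q A B hq hB l.dropLast (q + 1) [] X hX i (by simp; omega)
  unfold stepUp
  refine le_trans (le_of_eq ?_) this
  rw [List.length_dropLast, csum_dropLast _ _ _ (by omega)]

end Pool.Agent.H98.L
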