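import Mathlib

namespace Pool.Agent.H98.L

/-- Horner scheme from below for the exponential of z / q, with j remaining factors. -/
def hornLow (q z : ℕ) : ℕ → ℕ → ℕ
  | 0, r => r
  | j + 1, r => hornLow q z j (q + z * r / (q * (j + 1)))

/-- Horner scheme from above. -/
def hornUp (q z : ℕ) : ℕ → ℕ → ℕ
  | 0, r => r
  | j + 1, r => hornUp q z j (q + z * r / (q * (j + 1)) + 1)

/-- lower bound for q * exp (- (A / B) * h / q) -/
def facLow (q A B h : ℕ) : ℕ := q * q / hornUp q (A * h / B + 1) 30 (2 * q)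

/-- upper bound for q * exp (- (A / B) * h / q) -/
def facUp (q A B h : ℕ) : ℕ := q * q / hornLow q (A * h / B) 30 q + 1

def accLow (q A B : ℕ) : List ℕ → ℕ → List ℕ → List ℕ
  | [], P, acc => P :: acc
  | h :: t, P, acc => accLow q A B t (P * facLow q A B h / q) (P :: acc)

def accUp (q A B : ℕ) : List ℕ → ℕ → List ℕ → List ℕ
  | [], P, acc => min P q :: acc
  | h :: t, P, acc => accUp q A B t (P * facUp q A B h / q + 1) (min P q :: acc)

def stepLow (q A B : ℕ) (hi : List ℕ) : List ℕ :=
  accLow q A B hi.dropLast (facLow q A B (hi.headD 0) * facLow q A B (hi.headD 0) / q) []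

def stepUp (q A B : ℕ) (lo : List ℕ) : List ℕ := accUp q A B lo.dropLast (q + 1) []

end Pool.Agent.H98.L
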