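import Mathlib

namespace Pool.Agent.H98.L

open Real Finset

/-- window sum of radius 2c -/
noncomputable def W (c : ℕ) (u : ℤ → ℝ) (t : ℤ) : ℝ :=
  ∑ j ∈ range (4 * c + 1), u (t - 2 * c + j)

/-- the normalised recursion -/
noncomputable def nxt (c d : ℕ) (u : ℤ → ℝ) (t : ℤ) : ℝ := (W c u t / W c u 0) ^ d

/-- even, decreasing away from 0, value 1 at 0, nonnegative -/
structure EA (u : ℤ → ℝ) : Prop where
  anti : ∀ s t : ℤ, |s| ≤ |t| → u t ≤ u s
  one : u 0 = 1
  nonneg : ∀ t, 0 ≤ u t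

theorem EA.even {u : ℤ → ℝ} (h : EA u) (t : ℤ) : u (-t) = u t :=
  le_antisymm (h.anti _ _ (by rw [abs_neg])) (h.anti _ _ (by rw [abs_neg]))

theorem EA.le_one {u : ℤ → ℝ} (h : EA u) (t : ℤ) : u t ≤ 1 := by
  rw [← h.one]; exact h.anti _ _ (by simp)

theorem W_succ (c : ℕ) (u : ℤ → ℝ) (t : ℤ) :
    W c u (t + 1) + u (t - 2 * c) = W c u t + u (t + 2 * c + 1) := by
  have h1 : ∑ j ∈ range (4 * c + 1 + 1), u (t - 2 * c + j)
      = W c u (t + 1) + u (t - 2 * c) := by
    rw [sum_range_succ']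
    unfold W
    congr 1
    · refine sum_congr rfl fun j _ => ?_
      congr 1; push_cast; ring
    · simp
  have h2 : ∑ j ∈ range (4 * c + 1 + 1), u (t - 2 * c + j)
      = W c u t + u (t + 2 * c + 1) := by
    rw [sum_range_succ]
    unfold W
    congr 2
    push_cast; ring
  rw [← h1, h2]

theorem W_even (c : ℕ) {u : ℤ → ℝ} (h : EA u) (t : ℤ) : W c u (-t) = W c u t := by
  unfold W
  rw [← sum_range_reflect]
  refine sum_congr rfl fun j hj => ?_
  have hj' : j < 4 * c + 1 := mem_range.1 hj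
  rw [← h.even]
  congr 1
  have : ((4 * c + 1 - 1 - j : ℕ) : ℤ) = 4 * c - j := by omega
  rw [this]
  ring

/-- the deficit -/
noncomputable def D (c : ℕ) (u : ℤ → ℝ) (t : ℕ) : ℝ :=
  ∑ s ∈ range t, (u (2 * c - s) - u (2 * c + 1 + s))

theorem W_nat (c : ℕ) {u : ℤ → ℝ} (h : EA u) (t : ℕ) : W c u t = W c u 0 - D c u t := by
  induction t with
  | zero => simp [D]
  | succ t ih =>
    have h1 := W_succ c u (t : ℤ)
    have h2 : D c u (t + 1) = D c u t + (u (2 * c - t) - u (2 * c + 1 + t)) := by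
      unfold D; rw [sum_range_succ]
    have h3 : u ((t : ℤ) - 2 * c) = u (2 * c - t) := by
      rw [← h.even]; congr 1; ring
    have h4 : u ((t : ℤ) + 2 * c + 1) = u (2 * c + 1 + t) := by congr 1; ring
    push_cast
    rw [h3, h4] at h1
    linarith

theorem D_term_nonneg (c : ℕ) {u : ℤ → ℝ} (h : EA u) (s : ℕ) :
    0 ≤ u (2 * c - s) - u (2 * c + 1 + s) := by
  have := h.anti (2 * c - s) (2 * c + 1 + s) (by
    rw [abs_le]
    constructor
    · rw [abs_of_nonneg (by omega)]; omega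
    · rw [abs_of_nonneg (by omega : (0 : ℤ) ≤ 2 * c + 1 + s)]; omega)
  linarith

theorem D_nonneg (c : ℕ) {u : ℤ → ℝ} (h : EA u) (t : ℕ) : 0 ≤ D c u t :=
  sum_nonneg fun s _ => D_term_nonneg c h s

theorem D_mono (c : ℕ) {u : ℤ → ℝ} (h : EA u) {s t : ℕ} (hst : s ≤ t) : D c u s ≤ D c u t :=
  sum_le_sum_of_subset_of_nonneg (range_subset_range.2 hst) fun _ _ _ => D_term_nonneg c h _

theorem W_nonneg (c : ℕ) {u : ℤ → ℝ} (h : EA u) (t : ℤ) : 0 ≤ W c u t :=
  sum_nonneg fun _ _ => h.nonneg _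

theorem W_zero_eq (c : ℕ) {u : ℤ → ℝ} (h : EA u) :
    W c u 0 = 1 + 2 * ∑ s ∈ range (2 * c), u (2 * c - s) := by
  have key : ∀ N : ℕ, ∑ j ∈ range (2 * N + 1), u (-(N : ℤ) + j)
      = 1 + 2 * ∑ s ∈ range N, u (N - s) := by
    intro N
    induction N with
    | zero => simp [h.one]
    | succ N ih =>
      rw [show 2 * (N + 1) + 1 = (2 * N + 1 + 1) + 1 by ring, sum_range_succ, sum_range_succ',
        sum_range_succ' (fun s : ℕ => u (((N + 1 : ℕ) : ℤ) - s))]
      have e1 : ∑ k ∈ range (2 * N + 1), u (-((N + 1 : ℕ) : ℤ) + ((k + 1 : ℕ) : ℤ))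
          = ∑ j ∈ range (2 * N + 1), u (-(N : ℤ) + j) := by
        refine sum_congr rfl fun j _ => ?_
        congr 1; push_cast; ring
      have e2 : ∑ k ∈ range N, u (((N + 1 : ℕ) : ℤ) - ((k + 1 : ℕ) : ℤ))
          = ∑ s ∈ range N, u (N - s) := by
        refine sum_congr rfl fun j _ => ?_
        congr 1; push_cast; ring
      rw [e1, e2, ih]
      have e3 : u (-((N + 1 : ℕ) : ℤ) + ((0 : ℕ) : ℤ)) = u (((N + 1 : ℕ) : ℤ) - ((0 : ℕ) : ℤ)) := by
        rw [← h.even]; congr 1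
      have e4 : u (-((N + 1 : ℕ) : ℤ) + ((2 * N + 1 + 1 : ℕ) : ℤ))
          = u (((N + 1 : ℕ) : ℤ) - ((0 : ℕ) : ℤ)) := by
        congr 1; push_cast; ring
      rw [e3, e4]
      ring
  have := key (2 * c)
  unfold W
  rw [show 4 * c + 1 = 2 * (2 * c) + 1 by ring]
  push_cast at this ⊢
  simpa [zero_sub] using this

theorem W_zero_pos (c : ℕ) {u : ℤ → ℝ} (h : EA u) : 0 < W c u 0 := by
  rw [W_zero_eq c h]
  have : 0 ≤ ∑ s ∈ range (2 * c), u (2 * c - s) := sum_nonneg fun _ _ => h.nonneg _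
  linarith

theorem W_anti (c : ℕ) {u : ℤ → ℝ} (h : EA u) (s t : ℤ) (hst : |s| ≤ |t|) : W c u t ≤ W c u s := by
  have key : ∀ r : ℤ, W c u r = W c u 0 - D c u r.natAbs := by
    intro r
    rw [← W_nat c h]
    rcases abs_choice r with h1 | h1
    · rw [Int.natCast_natAbs, h1]
    · rw [Int.natCast_natAbs, h1, W_even c h]
  rw [key s, key t]
  have hn : s.natAbs ≤ t.natAbs := by
    rw [Int.abs_eq_natAbs, Int.abs_eq_natAbs] at hst
    exact_mod_cast hst
  have := D_mono c h hn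
  linarith

theorem EA_nxt (c d : ℕ) {u : ℤ → ℝ} (h : EA u) : EA (nxt c d u) where
  anti s t hst := by
    unfold nxt
    apply pow_le_pow_left₀
    · exact div_nonneg (W_nonneg c h _) (W_nonneg c h _)
    · exact div_le_div_of_nonneg_right (W_anti c h s t hst) (W_nonneg c h _)
  one := by
    unfold nxt
    rw [div_self (W_zero_pos c h).ne', one_pow]
  nonneg t := by
    unfold nxt
    exact pow_nonneg (div_nonneg (W_nonneg c h _) (W_nonneg c h _)) _

theorem geo_tail (e : ℕ) : ∑ s ∈ range e, ((2 : ℝ) / 3) ^ (e - s) ≤ 2 := by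
  induction e with
  | zero => simp
  | succ e ih =>
    have h1 : ∑ s ∈ range (e + 1), ((2 : ℝ) / 3) ^ (e + 1 - s)
        = (2 / 3) * (∑ s ∈ range e, ((2 : ℝ) / 3) ^ (e - s) + 1) := by
      rw [sum_range_succ, mul_add, mul_sum]
      congr 1
      · refine sum_congr rfl fun s hs => ?_
        have : s < e := mem_range.1 hs
        rw [show e + 1 - s = (e - s) + 1 by omega, pow_succ]; ring
      · simp
    rw [h1]; linarith

/-- sum over the far tail -/
theorem tail_sum (L e c : ℕ) (hc : c = e + L) (u : ℤ → ℝ) (h0 : ℝ) (hh0 : 0 ≤ h0)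
    (htail : ∀ j : ℕ, j ≤ e → u (c + L + j) ≤ h0 * (2 / 3) ^ j) :
    ∑ s ∈ range e, u (2 * c - s) ≤ 2 * h0 := by
  calc ∑ s ∈ range e, u (2 * c - s) ≤ ∑ s ∈ range e, h0 * ((2 : ℝ) / 3) ^ (e - s) := by
        refine sum_le_sum fun s hs => ?_
        have hs' : s < e := mem_range.1 hs
        have := htail (e - s) (by omega)
        refine le_trans (le_of_eq ?_) this
        congr 1
        rw [hc]; push_cast
        rw [Nat.cast_sub hs'.le]; ring
    _ = h0 * ∑ s ∈ range e, ((2 : ℝ) / 3) ^ (e - s) := by rw [mul_sum]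
    _ ≤ h0 * 2 := mul_le_mul_of_nonneg_left (geo_tail e) hh0
    _ = 2 * h0 := by ring

theorem D_upper (L e c : ℕ) (hc : c = e + L) {u : ℤ → ℝ} (h : EA u) (h0 : ℝ) (hh0 : 0 ≤ h0)
    (htail : ∀ j : ℕ, j ≤ e → u (c + L + j) ≤ h0 * (2 / 3) ^ j) (hi : ℕ → ℝ) (n : ℕ)
    (hhi : ∀ b, b < n → u (c + L - b) ≤ hi b) :
    D c u (e + n) ≤ 2 * h0 + ∑ b ∈ range n, hi b := by
  unfold D
  rw [sum_range_add]
  apply add_le_add
  · refine le_trans (sum_le_sum fun s _ => ?_) (tail_sum L e c hc u h0 hh0 htail)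
    have := h.nonneg (2 * c + 1 + s)
    linarith
  · refine sum_le_sum fun b hb => ?_
    have h1 := h.nonneg (2 * c + 1 + ((e + b : ℕ) : ℤ))
    have h2 := hhi b (mem_range.1 hb)
    have h3 : u (2 * c - ((e + b : ℕ) : ℤ)) = u (c + L - b) := by
      congr 1; rw [hc]; push_cast; ring
    linarith

theorem D_lower (L e c : ℕ) (hc : c = e + L) {u : ℤ → ℝ} (h : EA u) (lo : ℕ → ℝ) (n : ℕ)
    (hlo : ∀ b, b < n → lo b ≤ u (c + L - b)) :
    ∑ b ∈ range n, lo b - (e + n) * u (2 * c) ≤ D c u (e + n) := by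
  have h0 : ∀ s : ℕ, u (2 * c + 1 + s) ≤ u (2 * c) := by
    intro s
    apply h.anti
    rw [abs_of_nonneg (by omega), abs_of_nonneg (by omega)]; omega
  have h1 : D c u (e + n) = ∑ s ∈ range (e + n), u (2 * c - s) - ∑ s ∈ range (e + n), u (2 * c + 1 + s) := by
    unfold D; rw [sum_sub_distrib]
  have h2 : ∑ s ∈ range (e + n), u (2 * c + 1 + s) ≤ (e + n) * u (2 * c) := by
    have := sum_le_sum (s := range (e + n)) fun s _ => h0 s
    rw [sum_const, card_range, nsmul_eq_mul] at this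
    push_cast at this
    exact this
  have h3 : ∑ b ∈ range n, lo b ≤ ∑ s ∈ range (e + n), u (2 * c - s) := by
    rw [sum_range_add]
    have h4 : 0 ≤ ∑ s ∈ range e, u (2 * c - s) := sum_nonneg fun _ _ => h.nonneg _
    have h5 : ∑ b ∈ range n, lo b ≤ ∑ b ∈ range n, u (2 * c - ((e + b : ℕ) : ℤ)) := by
      refine sum_le_sum fun b hb => ?_
      refine (hlo b (mem_range.1 hb)).trans (le_of_eq ?_)
      congr 1; rw [hc]; push_cast; ring
    linarith
  linarith

theorem S_upper (L e c : ℕ) (hc : c = e + L) {u : ℤ → ℝ} (h : EA u) (h0 : ℝ) (hh0 : 0 ≤ h0)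
    (htail : ∀ j : ℕ, j ≤ e → u (c + L + j) ≤ h0 * (2 / 3) ^ j) :
    W c u 0 ≤ 1 + 2 * (2 * h0 + (c + L)) := by
  rw [W_zero_eq c h]
  have h1 : 2 * c = e + (c + L) := by omega
  have h2 : ∑ s ∈ range (2 * c), u (2 * c - s) ≤ 2 * h0 + (c + L) := by
    rw [h1, sum_range_add]
    apply add_le_add
    · exact tail_sum L e c hc u h0 hh0 htail
    · have := sum_le_sum (s := range (c + L)) fun b _ => h.le_one (2 * c - ((e + b : ℕ) : ℤ))
      rw [sum_const, card_range, nsmul_eq_mul] at this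
      push_cast at this ⊢
      linarith
  linarith

theorem S_lower (L e c : ℕ) (hc : c = e + L) {u : ℤ → ℝ} (h : EA u) (top : ℝ)
    (htop : top ≤ u (c - L)) : 1 + 2 * (e * top) ≤ W c u 0 := by
  rw [W_zero_eq c h]
  have h1 : 2 * c = (c + L) + e := by omega
  have h2 : e * top ≤ ∑ s ∈ range (2 * c), u (2 * c - s) := by
    rw [h1, sum_range_add]
    have h3 : 0 ≤ ∑ s ∈ range (c + L), u (2 * c - s) := sum_nonneg fun _ _ => h.nonneg _
    have h4 : (e : ℝ) * top ≤ ∑ x ∈ range e, u (2 * c - ((c + L + x : ℕ) : ℤ)) := by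
      have := sum_le_sum (s := range e) (f := fun _ => top) (g := fun x => u (2 * c - ((c + L + x : ℕ) : ℤ)))
        fun x hx => htop.trans (h.anti _ _ (by
          have hx' : x < e := mem_range.1 hx
          rw [abs_of_nonneg (by omega), abs_of_nonneg (by omega)]; omega))
      rw [sum_const, card_range, nsmul_eq_mul] at this
      exact this
    linarith
  linarith

theorem nxt_nat (c d : ℕ) {u : ℤ → ℝ} (h : EA u) (t : ℕ) :
    nxt c d u t = (1 - D c u t / W c u 0) ^ d := by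
  unfold nxt
  rw [W_nat c h, sub_div, div_self (W_zero_pos c h).ne']

theorem nxt_upper (c d : ℕ) {u : ℤ → ℝ} (h : EA u) (t : ℕ) (κ Y : ℝ) (hκ : 0 ≤ κ)
    (hS : κ * W c u 0 ≤ d) (hY : Y ≤ D c u t) : nxt c d u t ≤ Real.exp (-(κ * Y)) := by
  rw [nxt_nat c d h]
  have hS0 := W_zero_pos c h
  have hD := D_nonneg c h t
  have h0 : 0 ≤ 1 - D c u t / W c u 0 := by
    have h1 := W_nonneg c h (t : ℤ)
    rw [W_nat c h] at h1
    rw [sub_nonneg, div_le_one hS0]; linarith
  have h1 : 1 - D c u t / W c u 0 ≤ Real.exp (-(D c u t / W c u 0)) := by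
    have := Real.add_one_le_exp (-(D c u t / W c u 0))
    linarith
  calc (1 - D c u t / W c u 0) ^ d ≤ (Real.exp (-(D c u t / W c u 0))) ^ d :=
        pow_le_pow_left₀ h0 h1 d
    _ = Real.exp (-((d : ℝ) * (D c u t / W c u 0))) := by
        rw [← Real.exp_nat_mul]; congr 1; ring
    _ ≤ Real.exp (-(κ * Y)) := by
        apply Real.exp_le_exp.2
        have h2 : κ * D c u t ≤ (d : ℝ) * (D c u t / W c u 0) := by
          rw [← mul_div_assoc, le_div_iff₀ hS0]
          nlinarith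
        nlinarith

theorem nxt_lower (c d : ℕ) {u : ℤ → ℝ} (h : EA u) (t : ℕ) (κ X : ℝ) (hX0 : 0 ≤ X)
    (hX : D c u t ≤ X) (hlt : X < W c u 0) (hκ : (d : ℝ) ≤ κ * (W c u 0 - X)) :
    Real.exp (-(κ * X)) ≤ nxt c d u t := by
  rw [nxt_nat c d h]
  have hS0 := W_zero_pos c h
  set S := W c u 0 with hS
  have hSX : 0 < S - X := by linarith
  have h1 : Real.exp (-(X / (S - X))) ≤ 1 - D c u t / S := by
    have h2 : 1 + X / (S - X) ≤ Real.exp (X / (S - X)) := by
      have := Real.add_one_le_exp (X / (S - X)); linarith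
    have h3 : 0 < 1 + X / (S - X) := by positivity
    calc Real.exp (-(X / (S - X))) = (Real.exp (X / (S - X)))⁻¹ := Real.exp_neg _
      _ ≤ (1 + X / (S - X))⁻¹ := inv_anti₀ h3 h2
      _ = 1 - X / S := by
          field_simp
          ring
      _ ≤ 1 - D c u t / S := by
          have := div_le_div_of_nonneg_right hX hS0.le
          linarith
  calc Real.exp (-(κ * X)) ≤ Real.exp (-((d : ℝ) * (X / (S - X)))) := by
        apply Real.exp_le_exp.2
        have : (d : ℝ) * (X / (S - X)) ≤ κ * X := by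
          rw [← mul_div_assoc, div_le_iff₀ hSX]
          nlinarith
        linarith
    _ = (Real.exp (-(X / (S - X)))) ^ d := by
        rw [← Real.exp_nat_mul]; congr 1; ring
    _ ≤ _ := pow_le_pow_left₀ (Real.exp_pos _).le h1 d

end Pool.Agent.H98.L
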