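import Pool.Agent.H98.L.Trap
import Pool.Agent.H98.L.Kernel

namespace Pool.Agent.H98.L

open Real Finset Filter Topology

theorem leL_length : ∀ (a b : List ℕ), leL a b = true → a.length = b.length
  | [], [], _ => rfl
  | x :: xs, y :: ys, h => by
    simp only [leL, Bool.and_eq_true] at h
    simp [leL_length xs ys h.2]
  | [], y :: ys, h => by simp [leL] at h
  | x :: xs, [], h => by simp [leL] at h

theorem leL_getD : ∀ (a b : List ℕ), leL a b = true → ∀ i, a.getD i 0 ≤ b.getD i 0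
  | [], [], _, i => by simp
  | x :: xs, y :: ys, h, i => by
    simp only [leL, Bool.and_eq_true] at h
    cases i with
    | zero => simpa using Nat.le_of_ble_eq_true h.1
    | succ i =>
      simp only [List.getD_cons_succ]
      exact leL_getD xs ys h.2 i
  | [], y :: ys, h, i => by simp [leL] at h
  | x :: xs, [], h, i => by simp [leL] at h

theorem le_of_leL_replicate (q n : ℕ) (l : List ℕ) (h : leL l (List.replicate n q) = true) :
    ∀ x ∈ l, x ≤ q := by
  induction l generalizing n with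
  | nil => simp
  | cons a t ih =>
    cases n with
    | zero => simp [leL] at h
    | succ n =>
      simp only [List.replicate_succ, leL, Bool.and_eq_true] at h
      intro x hx
      rcases List.mem_cons.1 hx with rfl | hx
      · exact Nat.le_of_ble_eq_true h.1
      · exact ih n h.2 x hx

theorem Good.weaken {q c : ℕ} {u : ℤ → ℝ} {lo hi ls hs : List ℕ} (hg : Good q c u lo hi)
    (h1 : leL ls lo = true) (h2 : leL hi hs = true) (h3 : ∀ h ∈ hs, h ≤ q) : Good q c u ls hs where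
  lenlo := by rw [leL_length _ _ h1, hg.lenlo]
  lenhi := by rw [← leL_length _ _ h2, hg.lenhi]
  hile := h3
  low a ha := by
    refine le_trans ?_ (hg.low a ha)
    have := leL_getD _ _ h1 a
    gcongr
  upp a ha := by
    refine (hg.upp a ha).trans ?_
    have := leL_getD _ _ h2 a
    gcongr
  tail j hj := by
    refine (hg.tail j hj).trans ?_
    have := leL_getD _ _ h2 0
    gcongr

/-- all numerical requirements on the size parameter m (with c = 2m, d = 3m) -/
structure Big (m : ℕ) (top ε : ℝ) : Prop where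
  hm : 80 ≤ 2 * m
  c1 : (162 : ℝ) < 2 * (((2 * m - 80 : ℕ) : ℝ) * top)
  c1' : ((3 * m : ℕ) : ℝ) ≤ (A10 : ℝ) / B0 * (2 * (((2 * m - 80 : ℕ) : ℝ) * top) - 162)
  c2 : (A20 : ℝ) / B0 * (1 + 2 * (2 + (((2 * m : ℕ) : ℝ) + 80))) ≤ ((3 * m : ℕ) : ℝ)
  c3 : 2 * (((2 * m : ℕ) : ℝ)) * (2 / 3) ^ (2 * m - 80) ≤ ε

noncomputable def top0 : ℝ := 1 - 1 / 2 ^ 61
noncomputable def eps0 : ℝ := 1 / 2 ^ 112

theorem q0_eq : q0 = 2 ^ 112 := by unfold q0; norm_num
theorem q0_pos : 0 < q0 := by unfold q0; norm_num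

theorem csum_ge (q : ℕ) (lo : List ℕ) (h : q ≤ 2 * lo.getD 150 0) (hq : 0 < q) :
    eps0 ≤ csum q lo 160 := by
  have hQ : (0 : ℝ) < q := by exact_mod_cast hq
  have h1 : ((lo.getD 150 0 : ℕ) : ℝ) / q ≤ csum q lo 160 := by
    unfold csum
    exact single_le_sum (f := fun b => ((lo.getD b 0 : ℕ) : ℝ) / q) (fun _ _ => by positivity)
      (mem_range.2 (by norm_num : 150 < 160))
  have h2 : (1 : ℝ) / 2 ≤ ((lo.getD 150 0 : ℕ) : ℝ) / q := by
    rw [le_div_iff₀ hQ]
    have : (q : ℝ) ≤ 2 * (lo.getD 150 0 : ℕ) := by exact_mod_cast h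
    linarith
  have h3 : eps0 ≤ 1 / 2 := by
    unfold eps0; norm_num
  linarith

theorem topOk_top (lo : List ℕ) (h : topOk q0 lo = true) :
    top0 ≤ ((lo.getD 160 0 : ℕ) : ℝ) / q0 := by
  have hQ : (0 : ℝ) < q0 := by exact_mod_cast q0_pos
  simp only [topOk, Bool.and_eq_true] at h
  have h1 := Nat.le_of_ble_eq_true h.1
  rw [le_div_iff₀ hQ]
  have h2 : q0 ≤ lo.getD 160 0 + 2 ^ 51 := by omega
  have h3 : (q0 : ℝ) ≤ (lo.getD 160 0 : ℕ) + 2 ^ 51 := by exact_mod_cast h2
  have h4 : top0 * (q0 : ℝ) = q0 - 2 ^ 51 := by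
    rw [q0_eq]; unfold top0; push_cast; norm_num
  rw [h4]; linarith

theorem good_next (m : ℕ) (hb : Big m top0 eps0) {u : ℤ → ℝ} (hu : EA u) (lo hi : List ℕ)
    (hg : Good q0 (2 * m) u lo hi) (ht : topOk q0 lo = true) :
    Good q0 (2 * m) (nxt (2 * m) (3 * m) u) (stepLow q0 A10 B0 hi) (stepUp q0 A20 B0 lo) := by
  have h1 := Nat.le_of_ble_eq_true ((Bool.and_eq_true _ _).mp (by simpa only [topOk] using ht)).2
  refine Good_step q0 A10 B0 A20 B0 q0_pos ?_ ?_ ?_ (2 * m) (2 * m - 80) (3 * m) ?_ hu lo hi hg top0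
    (topOk_top lo ht) eps0 (csum_ge q0 lo h1 q0_pos) hb.c1 hb.c1' hb.c2 hb.c3 ?_ ?_
  · unfold B0; norm_num
  · unfold B0; norm_num
  · unfold A10 B0 q0; norm_num
  · have := hb.hm; omega
  · have h2 : -((A20 : ℝ) / B0 * (-eps0)) = (A20 : ℝ) / B0 * eps0 := by ring
    rw [h2]
    have hA : (A20 : ℝ) / B0 ≤ 3 / 4 := by
      unfold A20 B0; norm_num
    have hpos : 0 < eps0 := by unfold eps0; positivity
    have h3 : (A20 : ℝ) / B0 * eps0 ≤ 3 / 4 * eps0 := mul_le_mul_of_nonneg_right hA hpos.le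
    have h4 : eps0 ≤ 1 / 3 := by unfold eps0; norm_num
    have h5 : 1 - 3 / 4 * eps0 ≤ Real.exp (-(3 / 4 * eps0)) := by
      have := Real.add_one_le_exp (-(3 / 4 * eps0)); linarith
    have h6 : 0 < 1 - 3 / 4 * eps0 := by linarith
    have h7 : Real.exp (3 / 4 * eps0) ≤ 1 / (1 - 3 / 4 * eps0) := by
      rw [le_div_iff₀ h6]
      calc Real.exp (3 / 4 * eps0) * (1 - 3 / 4 * eps0)
          ≤ Real.exp (3 / 4 * eps0) * Real.exp (-(3 / 4 * eps0)) :=
            mul_le_mul_of_nonneg_left h5 (Real.exp_pos _).le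
        _ = 1 := by rw [← Real.exp_add]; simp
    have h8 : 1 / (1 - 3 / 4 * eps0) ≤ 1 + eps0 := by
      rw [div_le_iff₀ h6]; nlinarith
    have h9 : ((q0 + 1 : ℕ) : ℝ) / q0 = 1 + eps0 := by
      rw [q0_eq]; unfold eps0; push_cast; norm_num
    rw [h9]
    exact (Real.exp_le_exp.2 h3).trans (h7.trans h8)
  · have h2 : (7 : ℝ) / 10 ≤ (A20 : ℝ) / B0 * top0 := by
      unfold A20 B0 top0; norm_num
    have h3 : Real.exp (-((A20 : ℝ) / B0 * top0)) ≤ Real.exp (-(7 / 10)) :=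
      Real.exp_le_exp.2 (by linarith)
    refine h3.trans ?_
    rw [Real.exp_neg, inv_le_comm₀ (Real.exp_pos _) (by norm_num)]
    have := Real.add_one_le_exp (7 / 10 : ℝ)
    have h4 : ((2 : ℝ) / 3)⁻¹ = 3 / 2 := by norm_num
    rw [h4]
    linarith

theorem chk_sound (m : ℕ) (hb : Big m top0 eps0) (ls hs : List ℕ) (hhs : ∀ h ∈ hs, h ≤ q0)
    (n : ℕ) : ∀ (lo hi : List ℕ) (u : ℤ → ℝ), EA u → Good q0 (2 * m) u lo hi →
      chk q0 A10 A20 B0 ls hs n lo hi = true →
      Good q0 (2 * m) ((nxt (2 * m) (3 * m))^[n] u) ls hs := by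
  induction n with
  | zero =>
    intro lo hi u hu hg h
    simp only [chk, Bool.and_eq_true] at h
    exact hg.weaken h.1 h.2 hhs
  | succ n ih =>
    intro lo hi u hu hg h
    simp only [chk, Bool.and_eq_true] at h
    rw [Function.iterate_succ_apply]
    exact ih _ _ _ (EA_nxt _ _ hu) (good_next m hb hu lo hi hg h.1) h.2

/-- the initial state: indicator of [-c, c] -/
noncomputable def u0 (c : ℕ) (t : ℤ) : ℝ := if |t| ≤ (c : ℤ) then 1 else 0

theorem EA_u0 (c : ℕ) : EA (u0 c) where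
  anti s t hst := by
    unfold u0
    split_ifs <;> linarith
  one := by simp [u0]
  nonneg t := by unfold u0; split_ifs <;> norm_num

theorem Good_u0 (m : ℕ) (hm : 80 ≤ 2 * m) : Good q0 (2 * m) (u0 (2 * m)) e0 e0 := by
  have hlen : e0.length = 161 := by
    unfold e0
    rw [List.length_append, List.length_replicate, List.length_replicate]
  have hval : ∀ a : ℕ, a ≤ 160 → e0.getD a 0 = if a < 80 then 0 else q0 := by
    intro a ha
    unfold e0
    rw [List.getD_eq_getElem?_getD, List.getElem?_append]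
    split_ifs with h1 h2 h2
    · rw [List.getElem?_replicate]; split_ifs <;> simp
    · simp at h1; omega
    · simp at h1; omega
    · rw [List.getElem?_replicate]
      have : a - (List.replicate 80 0).length < 81 := by simp; omega
      simp only [this, if_true, Option.getD_some]
  have hQ : (0 : ℝ) < q0 := by exact_mod_cast q0_pos
  have hu : ∀ a : ℕ, a ≤ 160 → u0 (2 * m) (((2 * m : ℕ) : ℤ) + 80 - a) = ((e0.getD a 0 : ℕ) : ℝ) / q0 := by
    intro a ha
    rw [hval a ha]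
    unfold u0
    by_cases h : a < 80
    · have h1 : ¬ |(((2 * m : ℕ) : ℤ) + 80 - a)| ≤ ((2 * m : ℕ) : ℤ) := by
        rw [abs_of_nonneg (by omega)]; omega
      rw [if_neg h1]; simp [h]
    · have h1 : |(((2 * m : ℕ) : ℤ) + 80 - a)| ≤ ((2 * m : ℕ) : ℤ) := by
        rw [abs_of_nonneg (by omega)]; omega
      simp only [h1, h, if_true, if_false]
      rw [div_self hQ.ne']
  refine ⟨hlen, hlen, ?_, fun a ha => (hu a ha).ge, fun a ha => (hu a ha).le, ?_⟩
  · intro h hh
    unfold e0 at hh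
    rcases List.mem_append.1 hh with hh | hh
    · rw [List.eq_of_mem_replicate hh]; exact Nat.zero_le _
    · rw [List.eq_of_mem_replicate hh]
  · intro j hj
    have h1 : ¬ |(((2 * m : ℕ) : ℤ) + 80 + j)| ≤ ((2 * m : ℕ) : ℤ) := by
      rw [abs_of_nonneg (by omega)]; omega
    have h2 : u0 (2 * m) (((2 * m : ℕ) : ℤ) + 80 + j) = 0 := by
      unfold u0; simp only [h1, if_false]
    rw [h2]; positivity

/-- the normalised sequence of root profiles -/
noncomputable def useq (m n : ℕ) : ℤ → ℝ := (nxt (2 * m) (3 * m))^[n] (u0 (2 * m))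

theorem EA_useq (m n : ℕ) : EA (useq m n) := by
  induction n with
  | zero => exact EA_u0 _
  | succ n ih =>
    unfold useq
    rw [Function.iterate_succ_apply']
    exact EA_nxt _ _ ih

theorem useq_gap (m : ℕ) (hb : Big m top0 eps0) (k : ℕ) :
    useq m (36 + 2 * k) ((2 * m : ℕ) : ℤ) ≤ 1 / 2 ∧
      3 / 5 ≤ useq m (36 + 2 * k + 1) ((2 * m : ℕ) : ℤ) := by
  have hQ : (0 : ℝ) < q0 := by exact_mod_cast q0_pos
  have hall := allOk_true
  simp only [allOk, trapOk, Bool.and_eq_true] at hall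
  obtain ⟨hchk, ⟨⟨⟨⟨⟨⟨ht1, ht2⟩, hl⟩, hh⟩, hs1⟩, hs2⟩, hrep⟩⟩ := hall
  have hhs := le_of_leL_replicate q0 161 hs0 hrep
  have key : ∀ k : ℕ, Good q0 (2 * m) (useq m (36 + 2 * k)) ls0 hs0 := by
    intro k
    induction k with
    | zero => exact chk_sound m hb ls0 hs0 hhs 36 e0 e0 _ (EA_u0 _) (Good_u0 m hb.hm) hchk
    | succ k ih =>
      have g1 := good_next m hb (EA_useq m _) _ _ ih ht1
      have g2 := good_next m hb (EA_nxt _ _ (EA_useq m _)) _ _ g1 ht2
      have g3 := g2.weaken hl hh hhs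
      have e : useq m (36 + 2 * (k + 1))
          = nxt (2 * m) (3 * m) (nxt (2 * m) (3 * m) (useq m (36 + 2 * k))) := by
        unfold useq
        rw [show 36 + 2 * (k + 1) = (36 + 2 * k) + 1 + 1 by ring, Function.iterate_succ_apply',
          Function.iterate_succ_apply']
      rw [e]
      exact g3
  have hk := key k
  constructor
  · have h1 := hk.upp 80 (by norm_num)
    have h2 : (((2 * m : ℕ) : ℤ) + 80 - ((80 : ℕ) : ℤ)) = ((2 * m : ℕ) : ℤ) := by push_cast; ring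
    rw [h2] at h1
    refine h1.trans ?_
    rw [div_le_iff₀ hQ]
    have h3 := Nat.le_of_ble_eq_true hs1
    have h4 : (2 : ℝ) * (hs0.getD 80 0 : ℕ) ≤ q0 := by exact_mod_cast h3
    linarith
  · have g1 := good_next m hb (EA_useq m _) _ _ hk ht1
    have h1 := g1.low 80 (by norm_num)
    have h2 : (((2 * m : ℕ) : ℤ) + 80 - ((80 : ℕ) : ℤ)) = ((2 * m : ℕ) : ℤ) := by push_cast; ring
    rw [h2] at h1
    have e : useq m (36 + 2 * k + 1) = nxt (2 * m) (3 * m) (useq m (36 + 2 * k)) := by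
      unfold useq
      rw [Function.iterate_succ_apply']
    rw [e]
    refine le_trans ?_ h1
    rw [le_div_iff₀ hQ]
    have h3 := Nat.le_of_ble_eq_true hs2
    have h4 : (3 : ℝ) * q0 ≤ 5 * ((stepLow q0 A10 B0 hs0).getD 80 0 : ℕ) := by exact_mod_cast h3
    linarith

theorem eventually_big : ∀ᶠ m : ℕ in atTop, Big m top0 eps0 := by
  have hc3 : ∀ᶠ m : ℕ in atTop, 2 * (((2 * m : ℕ) : ℝ)) * (2 / 3) ^ (2 * m - 80) ≤ eps0 := by
    have h1 : Tendsto (fun n : ℕ => (n : ℝ) ^ 1 * (2 / 3 : ℝ) ^ n) atTop (𝓝 0) :=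
      tendsto_pow_const_mul_const_pow_of_abs_lt_one 1 (by rw [abs_of_pos] <;> norm_num)
    have h2 : Tendsto (fun n : ℕ => (n : ℝ) * (2 / 3 : ℝ) ^ n * (2 * (3 / 2) ^ 80)) atTop (𝓝 0) := by
      have := h1.mul_const (2 * (3 / 2 : ℝ) ^ 80)
      simpa using this
    have h3 : Tendsto (fun m : ℕ => 2 * m) atTop atTop :=
      tendsto_id.const_mul_atTop' (by norm_num)
    have h4 := h2.comp h3
    have h5 : ∀ᶠ m : ℕ in atTop, (((2 * m : ℕ) : ℝ) * (2 / 3 : ℝ) ^ (2 * m) * (2 * (3 / 2) ^ 80)) < eps0 := by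
      have : (0 : ℝ) < eps0 := by unfold eps0; positivity
      exact h4.eventually (gt_mem_nhds this)
    filter_upwards [h5, eventually_ge_atTop 40] with m hm hm40
    refine le_trans (le_of_eq ?_) hm.le
    have h6 : ((2 : ℝ) / 3) ^ (2 * m) = (2 / 3) ^ (2 * m - 80) * (2 / 3) ^ 80 := by
      rw [← pow_add]; congr 1; omega
    rw [h6]
    have h7 : ((2 : ℝ) / 3) ^ 80 * (3 / 2) ^ 80 = 1 := by
      rw [← mul_pow]; norm_num
    calc 2 * (((2 * m : ℕ) : ℝ)) * (2 / 3) ^ (2 * m - 80)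
        = ((2 * m : ℕ) : ℝ) * (2 / 3) ^ (2 * m - 80) * 2 * 1 := by ring
      _ = ((2 * m : ℕ) : ℝ) * (2 / 3) ^ (2 * m - 80) * 2 * (((2 : ℝ) / 3) ^ 80 * (3 / 2) ^ 80) := by
          rw [h7]
      _ = _ := by ring
  filter_upwards [hc3, eventually_ge_atTop (10 ^ 22)] with m h3 hm
  have hm' : (10000000000000000000000 : ℝ) ≤ m := by
    have : (10000000000000000000000 : ℕ) ≤ m := by norm_num at hm; exact hm
    exact_mod_cast this
  have hcast : ((2 * m - 80 : ℕ) : ℝ) = 2 * m - 80 := by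
    rw [Nat.cast_sub (by omega)]; push_cast; ring
  refine ⟨by omega, ?_, ?_, ?_, h3⟩
  · rw [hcast]; unfold top0
    norm_num
    linarith
  · rw [hcast]; unfold top0 A10 B0
    norm_num
    linarith
  · unfold A20 B0
    push_cast
    norm_num
    linarith

end Pool.Agent.H98.L
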