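import Pool.Agent.H98.L.ListStep
import Pool.Agent.H98.L.OneStep

namespace Pool.Agent.H98.L

open Real Finset

/-- The state u is enclosed by the two fixed point lists on the window and has a geometric tail. -/
structure Good (q c : ℕ) (u : ℤ → ℝ) (lo hi : List ℕ) : Prop where
  lenlo : lo.length = 161
  lenhi : hi.length = 161
  hile : ∀ h ∈ hi, h ≤ q
  low : ∀ a : ℕ, a ≤ 160 → ((lo.getD a 0 : ℕ) : ℝ) / q ≤ u (c + 80 - a)
  upp : ∀ a : ℕ, a ≤ 160 → u (c + 80 - a) ≤ ((hi.getD a 0 : ℕ) : ℝ) / q
  tail : ∀ j : ℕ, j + 80 ≤ c → u (c + 80 + j) ≤ ((hi.getD 0 0 : ℕ) : ℝ) / q * (2 / 3) ^ j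

theorem accUp_le (q A B : ℕ) (l : List ℕ) : ∀ (P : ℕ) (acc : List ℕ), (∀ h ∈ acc, h ≤ q) →
    ∀ h ∈ accUp q A B l P acc, h ≤ q := by
  induction l with
  | nil =>
    intro P acc hacc h hh
    simp only [accUp, List.mem_cons] at hh
    rcases hh with rfl | hh
    · exact Nat.min_le_right _ _
    · exact hacc h hh
  | cons a t ih =>
    intro P acc hacc h hh
    simp only [accUp] at hh
    refine ih _ _ ?_ h hh
    intro h' hh'
    rcases List.mem_cons.1 hh' with rfl | hh'
    · exact Nat.min_le_right _ _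
    · exact hacc h' hh'

theorem headD_eq_getD (l : List ℕ) : l.headD 0 = l.getD 0 0 := by
  cases l <;> simp

theorem getD_le_of_mem (q : ℕ) (l : List ℕ) (h : ∀ x ∈ l, x ≤ q) (b : ℕ) : l.getD b 0 ≤ q := by
  rcases Nat.lt_or_ge b l.length with hb | hb
  · rw [List.getD_eq_getElem _ _ hb]
    exact h _ (List.getElem_mem hb)
  · rw [List.getD_eq_default _ _ hb]
    exact Nat.zero_le _

theorem Good_step (q A1 B1 A2 B2 : ℕ) (hq : 0 < q) (hB1 : 0 < B1) (hB2 : 0 < B2)
    (hA : A1 * q / B1 + 1 ≤ q) (c e d : ℕ) (hc : c = e + 80) {u : ℤ → ℝ} (hu : EA u)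
    (lo hi : List ℕ) (hg : Good q c u lo hi) (top : ℝ)
    (htop : top ≤ ((lo.getD 160 0 : ℕ) : ℝ) / q) (ε : ℝ) (hcs : ε ≤ csum q lo 160)
    (c1 : (162 : ℝ) < 2 * (e * top))
    (c1' : (d : ℝ) ≤ (A1 : ℝ) / B1 * (2 * (e * top) - 162))
    (c2 : (A2 : ℝ) / B2 * (1 + 2 * (2 + (c + 80))) ≤ d)
    (c3 : 2 * (c : ℝ) * (2 / 3) ^ e ≤ ε)
    (c3' : Real.exp (-((A2 : ℝ) / B2 * (-ε))) ≤ ((q + 1 : ℕ) : ℝ) / q)
    (c4 : Real.exp (-((A2 : ℝ) / B2 * top)) ≤ 2 / 3) :
    Good q c (nxt c d u) (stepLow q A1 B1 hi) (stepUp q A2 B2 lo) := by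
  have hQ : (0 : ℝ) < q := by exact_mod_cast hq
  have hlone : lo ≠ [] := by intro h; have := hg.lenlo; rw [h] at this; simp at this
  have hhine : hi ≠ [] := by intro h; have := hg.lenhi; rw [h] at this; simp at this
  set h0 : ℝ := ((hi.getD 0 0 : ℕ) : ℝ) / q with hh0def
  have hb1 : ∀ b : ℕ, ((hi.getD b 0 : ℕ) : ℝ) / q ≤ 1 := by
    intro b
    rw [div_le_one hQ]
    exact_mod_cast getD_le_of_mem q hi hg.hile b
  have hh0 : 0 ≤ h0 := by positivity
  have hh01 : h0 ≤ 1 := hb1 0
  have htail : ∀ j : ℕ, j ≤ e → u (c + (80 : ℕ) + j) ≤ h0 * (2 / 3) ^ j := by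
    intro j hj
    have := hg.tail j (by omega)
    push_cast
    exact this
  have hSlow : 1 + 2 * (e * top) ≤ W c u 0 := by
    refine S_lower 80 e c hc hu top (htop.trans ?_)
    have := hg.low 160 le_rfl
    refine this.trans (le_of_eq ?_)
    congr 1; push_cast; ring
  have hSup : W c u 0 ≤ 1 + 2 * (2 + (c + 80)) := by
    have := S_upper 80 e c hc hu h0 hh0 htail
    push_cast at this
    linarith
  have hk2 : (0 : ℝ) ≤ (A2 : ℝ) / B2 := by positivity
  have hk1 : (0 : ℝ) ≤ (A1 : ℝ) / B1 := by positivity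
  have hkS : (A2 : ℝ) / B2 * W c u 0 ≤ d := (mul_le_mul_of_nonneg_left hSup hk2).trans c2
  have hfar : ∀ n : ℕ, e + n ≤ 2 * c → ((e : ℝ) + n) * u (2 * c) ≤ ε := by
    intro n hn
    have h1 : u (2 * c) ≤ (2 / 3) ^ e := by
      have h2 := htail e le_rfl
      have h3 : u (2 * c) = u (c + (80 : ℕ) + e) := by
        congr 1; rw [hc]; push_cast; ring
      rw [h3]
      refine h2.trans ?_
      have : (0 : ℝ) ≤ (2 / 3) ^ e := by positivity
      nlinarith
    have h4 : ((e : ℝ) + n) ≤ 2 * c := by exact_mod_cast hn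
    calc ((e : ℝ) + n) * u (2 * c) ≤ (2 * c) * (2 / 3) ^ e :=
          mul_le_mul h4 h1 (hu.nonneg _) (by positivity)
      _ ≤ ε := c3
  refine ⟨?_, ?_, ?_, ?_, ?_, ?_⟩
  · rw [stepLow_length _ _ _ _ hhine, hg.lenhi]
  · rw [stepUp_length _ _ _ _ hlone, hg.lenlo]
  · unfold stepUp
    exact accUp_le q A2 B2 _ _ [] (by simp)
  · intro a ha
    have h1 := stepLow_sound q A1 B1 hq hB1 hi hhine (fun h hh => by
      have h2 := hg.hile h hh
      have h3 : A1 * h / B1 ≤ A1 * q / B1 := Nat.div_le_div_right (Nat.mul_le_mul_left _ h2)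
      omega) a (by rw [hg.lenhi]; omega)
    refine h1.trans ?_
    rw [hg.lenhi, headD_eq_getD, show 161 - 1 - a = 160 - a by omega]
    have ht : ((c : ℤ) + 80 - a) = ((e + (160 - a) : ℕ) : ℤ) := by
      rw [hc]; push_cast
      rw [Nat.cast_sub ha]; push_cast; ring
    rw [ht]
    have hX162 : 2 * h0 + csum q hi (160 - a) ≤ 162 := by
      have : csum q hi (160 - a) ≤ 160 := by
        unfold csum
        have h5 := sum_le_sum (s := range (160 - a)) fun b _ => hb1 b
        rw [sum_const, card_range, nsmul_eq_mul, mul_one] at h5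
        have h6 : ((160 - a : ℕ) : ℝ) ≤ 160 := by
          have : 160 - a ≤ 160 := by omega
          exact_mod_cast this
        linarith
      linarith
    refine nxt_lower c d hu (e + (160 - a)) ((A1 : ℝ) / B1) (2 * h0 + csum q hi (160 - a)) ?_ ?_ ?_ ?_
    · have : 0 ≤ csum q hi (160 - a) := by
        unfold csum
        exact sum_nonneg fun _ _ => by positivity
      linarith
    · refine D_upper 80 e c hc hu h0 hh0 htail (fun b => ((hi.getD b 0 : ℕ) : ℝ) / q) (160 - a) ?_
      intro b hb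
      have := hg.upp b (by omega)
      push_cast
      exact this
    · linarith
    · refine c1'.trans (mul_le_mul_of_nonneg_left ?_ hk1)
      linarith
  · intro a ha
    have h1 := stepUp_sound q A2 B2 hq hB2 lo hlone (-ε) c3' a (by rw [hg.lenlo]; omega)
    refine le_trans ?_ h1
    rw [hg.lenlo, show 161 - 1 - a = 160 - a by omega]
    have ht : ((c : ℤ) + 80 - a) = ((e + (160 - a) : ℕ) : ℤ) := by
      rw [hc]; push_cast
      rw [Nat.cast_sub ha]; push_cast; ring
    rw [ht]
    refine le_min ((EA_nxt c d hu).le_one _) ?_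
    have := nxt_upper c d hu (e + (160 - a)) ((A2 : ℝ) / B2) (-ε + csum q lo (160 - a)) hk2 hkS ?_
    · exact this
    · have h5 := D_lower 80 e c hc hu (fun b => ((lo.getD b 0 : ℕ) : ℝ) / q) (160 - a) (by
        intro b hb
        have := hg.low b (by omega)
        push_cast
        exact this)
      have h6 := hfar (160 - a) (by omega)
      unfold csum
      linarith
  · intro j hj
    have hje : j ≤ e := by omega
    have ht : ((c : ℤ) + 80 + j) = ((e + (160 + j) : ℕ) : ℤ) := by
      rw [hc]; push_cast; ring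
    rw [ht]
    have hY : csum q lo 160 + j * top - ε ≤ D c u (e + (160 + j)) := by
      have h5 := D_lower 80 e c hc hu
        (fun b => if b < 160 then ((lo.getD b 0 : ℕ) : ℝ) / q else top) (160 + j) (by
        intro b hb
        by_cases hb' : b < 160
        · simp only [hb', if_true]
          have := hg.low b (by omega)
          push_cast
          exact this
        · simp only [hb', if_false]
          have h7 := hg.low 160 le_rfl
          refine (htop.trans h7).trans (hu.anti _ _ ?_)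
          rw [abs_of_nonneg (by push_cast; omega), abs_of_nonneg (by push_cast; omega)]
          push_cast; omega)
      have h6 := hfar (160 + j) (by omega)
      have h8 : ∑ b ∈ range (160 + j), (if b < 160 then ((lo.getD b 0 : ℕ) : ℝ) / q else top)
          = csum q lo 160 + j * top := by
        rw [sum_range_add]
        have q1 : ∑ b ∈ range 160, (if b < 160 then ((lo.getD b 0 : ℕ) : ℝ) / q else top)
            = csum q lo 160 := by
          unfold csum
          refine sum_congr rfl fun b hb => ?_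
          simp [mem_range.1 hb]
        have q2 : ∑ x ∈ range j, (if 160 + x < 160 then ((lo.getD (160 + x) 0 : ℕ) : ℝ) / q else top)
            = j * top := by
          have : ∀ x ∈ range j, (if 160 + x < 160 then ((lo.getD (160 + x) 0 : ℕ) : ℝ) / q else top) = top := by
            intro x _
            simp
          rw [sum_congr rfl this, sum_const, card_range, nsmul_eq_mul]
        rw [q1, q2]
      rw [h8] at h5
      push_cast at h5 h6
      push_cast
      linarith
    have h1 := nxt_upper c d hu (e + (160 + j)) ((A2 : ℝ) / B2) _ hk2 hkS hY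
    refine h1.trans ?_
    have h9 : Real.exp (-((A2 : ℝ) / B2 * (csum q lo 160 + j * top - ε)))
        = Real.exp (-((A2 : ℝ) / B2 * (-ε + csum q lo 160))) * (Real.exp (-((A2 : ℝ) / B2 * top))) ^ j := by
      rw [← Real.exp_nat_mul, ← Real.exp_add]
      congr 1; ring
    rw [h9]
    apply mul_le_mul _ _ (by positivity) (by positivity)
    · have h10 := stepUp_sound q A2 B2 hq hB2 lo hlone (-ε) c3' 0 (by rw [hg.lenlo]; omega)
      rw [hg.lenlo] at h10
      refine le_trans (le_of_eq ?_) h10
      symm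
      apply min_eq_right
      rw [Real.exp_le_one_iff]
      have : 0 ≤ -ε + csum q lo 160 := by linarith
      have := mul_nonneg hk2 this
      linarith
    · exact pow_le_pow_left₀ (Real.exp_pos _).le c4 j

end Pool.Agent.H98.L
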